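import Mathlib

set_option autoImplicit false

/-! Linear combinations of two divisors of the value of a function (helper536). -/

namespace Pool.Agent.U536.DS

/-- `w ≥ exp ((log N)^b)`, and `w = u d + v e` with divisors `d`, `e` of `f m` and integers `u`, `v` with
`|u|, |v| ≤ exp ((log N)^θ)` -/
def Comb (f : ℕ → ℕ) (b θ : ℝ) (N m w : ℕ) : Prop :=
  Real.exp (Real.log N ^ b) ≤ (w : ℝ) ∧ ∃ (d e : ℕ) (u v : ℤ), d ∣ f m ∧ e ∣ f m ∧
    |(u : ℝ)| ≤ Real.exp (Real.log N ^ θ) ∧ |(v : ℝ)| ≤ Real.exp (Real.log N ^ θ) ∧ (w : ℤ) = u * d + v * e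

lemma Comb.one_le {f : ℕ → ℕ} {b θ : ℝ} {N m w : ℕ} (h : Comb f b θ N m w) : 1 ≤ w := by
  have : (0 : ℝ) < w := lt_of_lt_of_le (Real.exp_pos _) h.1
  exact_mod_cast this

lemma one_le_exp_log (N : ℕ) (θ : ℝ) : 1 ≤ Real.exp (Real.log N ^ θ) := by
  have h : 0 ≤ Real.log N := Real.log_natCast_nonneg N
  have := Real.add_one_le_exp (Real.log N ^ θ)
  have h2 : 0 ≤ Real.log N ^ θ := Real.rpow_nonneg h θ
  linarith

/-- sums and differences of divisors -/
theorem comb_pm {f : ℕ → ℕ} {b θ : ℝ} {N m d e : ℕ} (hd : d ∣ f m) (he : e ∣ f m) :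
    (Real.exp (Real.log N ^ b) ≤ ((d + e : ℕ) : ℝ) → Comb f b θ N m (d + e)) ∧
    (Real.exp (Real.log N ^ b) ≤ ((d - e : ℕ) : ℝ) → Comb f b θ N m (d - e)) ∧
    (Real.exp (Real.log N ^ b) ≤ (d : ℝ) → Comb f b θ N m d) := by
  have h1 := one_le_exp_log N θ
  refine ⟨fun h => ⟨h, d, e, 1, 1, hd, he, ?_, ?_, ?_⟩, fun h => ⟨h, d, e, 1, -1, hd, he, ?_, ?_, ?_⟩,
    fun h => ⟨h, d, d, 1, 0, hd, hd, ?_, ?_, ?_⟩⟩
  · simpa using h1
  · simpa using h1
  · push_cast; ring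
  · simpa using h1
  · simpa using h1
  · have h2 : (0 : ℝ) < ((d - e : ℕ) : ℝ) := lt_of_lt_of_le (Real.exp_pos _) h
    have h3 : 0 < d - e := by exact_mod_cast h2
    have h4 : e ≤ d := by omega
    push_cast [h4]
    ring
  · simpa using h1
  · simpa using Real.exp_nonneg (Real.log N ^ θ)
  · push_cast; ring

/-- sums and differences of the orders of elements of the group of units modulo `m` -/
theorem comb_orders {b θ : ℝ} {N m : ℕ} (x y : (ZMod m)ˣ) :
    (Real.exp (Real.log N ^ b) ≤ ((orderOf x + orderOf y : ℕ) : ℝ) → Comb Nat.totient b θ N m (orderOf x + orderOf y)) ∧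
    (Real.exp (Real.log N ^ b) ≤ ((orderOf x - orderOf y : ℕ) : ℝ) → Comb Nat.totient b θ N m (orderOf x - orderOf y)) := by
  have hd : ∀ z : (ZMod m)ˣ, orderOf z ∣ Nat.totient m := by
    intro z
    rcases Nat.eq_zero_or_pos m with h | h
    · subst h
      simp
    · have : NeZero m := ⟨h.ne'⟩
      rw [← ZMod.card_units_eq_totient]
      exact orderOf_dvd_card
  exact ⟨(comb_pm (hd x) (hd y)).1, (comb_pm (hd x) (hd y)).2.1⟩

end Pool.Agent.U536.DS
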