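import Mathlib
import Pool.Agent.U536.CF.T

set_option autoImplicit false

/-! Products of the numbers of factorizations; pairs with a given least common multiple; pairs of integers with a given linear
combination (helper536). -/

namespace Pool.Agent.U536.DS

open Finset
open Pool.Agent.U536.CF

lemma choose_mul (i j a : ℕ) : Nat.choose (i + a) a * Nat.choose (j + a) a ≤ Nat.choose (i * j + i + j + a) a := by
  induction a with
  | zero => simp
  | succ a ih =>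
    have e : ∀ n : ℕ, Nat.choose (n + (a + 1)) (a + 1) * (a + 1) = Nat.choose (n + a) a * (n + a + 1) := by
      intro n
      have h1 := Nat.add_one_mul_choose_eq (n + a) a
      rw [show n + (a + 1) = n + a + 1 by ring, ← h1]
      ring
    have h1 : (Nat.choose (i + (a + 1)) (a + 1) * Nat.choose (j + (a + 1)) (a + 1)) * ((a + 1) * (a + 1)) ≤
        Nat.choose (i * j + i + j + (a + 1)) (a + 1) * ((a + 1) * (a + 1)) := by
      calc (Nat.choose (i + (a + 1)) (a + 1) * Nat.choose (j + (a + 1)) (a + 1)) * ((a + 1) * (a + 1))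
          = (Nat.choose (i + (a + 1)) (a + 1) * (a + 1)) * (Nat.choose (j + (a + 1)) (a + 1) * (a + 1)) := by ring
        _ = (Nat.choose (i + a) a * Nat.choose (j + a) a) * ((i + a + 1) * (j + a + 1)) := by rw [e, e]; ring
        _ ≤ Nat.choose (i * j + i + j + a) a * ((i * j + i + j + a + 1) * (a + 1)) := by
          apply Nat.mul_le_mul ih
          have : i * j * 1 ≤ i * j * (a + 1) := Nat.mul_le_mul_left _ (by omega)
          nlinarith
        _ = (Nat.choose (i * j + i + j + (a + 1)) (a + 1) * (a + 1)) * (a + 1) := by rw [e]; ring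
        _ = _ := by ring
    exact Nat.le_of_mul_le_mul_right h1 (by positivity)

/-- products of the numbers of factorizations -/
theorem T_mul (i j : ℕ) {v : ℕ} (hv : 1 ≤ v) : T (i + 1) v * T (j + 1) v ≤ T ((i + 1) * (j + 1)) v := by
  have hv0 : v ≠ 0 := by omega
  have e : ∀ j : ℕ, T (j + 1) v = ∏ p ∈ v.primeFactors, Nat.choose (j + v.factorization p) (v.factorization p) := by
    intro j
    rw [T_eq, (mult (j + 1)).multiplicative_factorization _ hv0, Finsupp.prod, Nat.support_factorization]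
    apply prod_congr rfl
    intro p hp
    rw [← T_eq, T_prime_pow j (Nat.prime_of_mem_primeFactors hp)]
  rw [show (i + 1) * (j + 1) = (i * j + i + j) + 1 by ring, e, e, e, ← prod_mul_distrib]
  exact prod_le_prod' (fun p _ => choose_mul i j _)

lemma T_one {v : ℕ} (hv : 1 ≤ v) : T 1 v = 1 := by
  rw [T_succ, sum_eq_single 1]
  · rw [T_zero, if_pos rfl]
  · intro b _ hb
    rw [T_zero, if_neg hb]
  · intro h
    exact absurd (Nat.one_mem_divisors.2 (by omega)) h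

lemma T_two {v : ℕ} (hv : 1 ≤ v) : T 2 v = v.divisors.card := by
  rw [T_succ, card_eq_sum_ones]
  apply sum_congr rfl
  intro d hd
  exact T_one (Nat.pos_of_mem_divisors hd)

/-- Hölder's inequality with the weights `1 / ℓ` -/
theorem holder {ι : Type*} (F : Finset ι) (ℓ : ι → ℕ) (hℓ : ∀ x ∈ F, 1 ≤ ℓ x) {q : ℝ} (hq : 1 < q) {J K : ℕ}
    (hJK : ((J : ℝ) + 1) ^ q ≤ (K : ℝ) + 1) {A B : ℝ} (hA : ∑ x ∈ F, (1 : ℝ) / ℓ x ≤ A)
    (hB : ∑ x ∈ F, (T (K + 1) (ℓ x) : ℝ) / ℓ x ≤ B) :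
    ∑ x ∈ F, (T (J + 1) (ℓ x) : ℝ) / ℓ x ≤ A ^ (1 - 1 / q) * B ^ (1 / q) := by
  have hq0 : 0 < q := by linarith
  have hpq : q.conjExponent.HolderConjugate q := (Real.HolderConjugate.conjExponent hq).symm
  obtain ⟨p, hp⟩ : ∃ p, p = q.conjExponent := ⟨_, rfl⟩
  rw [← hp] at hpq
  have hp0 : 0 < p := hpq.pos
  have hp1 : 1 / p = 1 - 1 / q := by
    have := hpq.inv_add_inv_eq_one
    rw [one_div, one_div]
    linarith
  have h1 := Real.inner_le_Lp_mul_Lq_of_nonneg F hpq (f := fun x => ((1 : ℝ) / ℓ x) ^ (1 / p))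
    (g := fun x => (T (J + 1) (ℓ x) : ℝ) * ((1 : ℝ) / ℓ x) ^ (1 / q)) (fun v _ => by positivity) (fun v _ => by positivity)
  have e1 : ∑ x ∈ F, ((1 : ℝ) / ℓ x) ^ (1 / p) * ((T (J + 1) (ℓ x) : ℝ) * ((1 : ℝ) / ℓ x) ^ (1 / q)) =
      ∑ x ∈ F, (T (J + 1) (ℓ x) : ℝ) / ℓ x := by
    apply sum_congr rfl
    intro x hx
    have hv0 : (0 : ℝ) < ℓ x := by exact_mod_cast hℓ x hx
    have : ((1 : ℝ) / ℓ x) ^ (1 / p) * ((1 : ℝ) / ℓ x) ^ (1 / q) = 1 / ℓ x := by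
      rw [← Real.rpow_add (by positivity), hp1, sub_add_cancel, Real.rpow_one]
    calc ((1 : ℝ) / ℓ x) ^ (1 / p) * ((T (J + 1) (ℓ x) : ℝ) * ((1 : ℝ) / ℓ x) ^ (1 / q)) =
          T (J + 1) (ℓ x) * (((1 : ℝ) / ℓ x) ^ (1 / p) * ((1 : ℝ) / ℓ x) ^ (1 / q)) := by ring
      _ = _ := by rw [this, mul_one_div]
  have e2 : ∑ x ∈ F, (((1 : ℝ) / ℓ x) ^ (1 / p)) ^ p = ∑ x ∈ F, (1 : ℝ) / ℓ x := by
    apply sum_congr rfl
    intro v _
    rw [← Real.rpow_mul (by positivity), one_div_mul_cancel hp0.ne', Real.rpow_one]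
  have e3 : ∑ x ∈ F, ((T (J + 1) (ℓ x) : ℝ) * ((1 : ℝ) / ℓ x) ^ (1 / q)) ^ q ≤ ∑ x ∈ F, (T (K + 1) (ℓ x) : ℝ) / ℓ x := by
    apply sum_le_sum
    intro x hx
    rw [Real.mul_rpow (by positivity) (by positivity), ← Real.rpow_mul (by positivity),
      one_div_mul_cancel hq0.ne', Real.rpow_one, mul_one_div]
    apply div_le_div_of_nonneg_right _ (Nat.cast_nonneg _)
    exact T_rpow hq.le hJK (hℓ x hx)
  rw [e1, e2, hp1] at h1
  refine h1.trans ?_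
  have hq1 : 0 ≤ 1 - 1 / q := by
    rw [← hp1]
    positivity
  have h2 : 0 ≤ ∑ x ∈ F, (1 : ℝ) / ℓ x := sum_nonneg (fun v _ => by positivity)
  have h3 : 0 ≤ ∑ x ∈ F, ((T (J + 1) (ℓ x) : ℝ) * ((1 : ℝ) / ℓ x) ^ (1 / q)) ^ q := sum_nonneg (fun v _ => by positivity)
  exact mul_le_mul (Real.rpow_le_rpow h2 hA hq1) (Real.rpow_le_rpow h3 (e3.trans hB) (by positivity)) (by positivity)
    (Real.rpow_nonneg (h2.trans hA) _)

/-- the pairs of integers up to `X` -/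
def Box (X : ℕ) : Finset (ℕ × ℕ) := Icc 1 X ×ˢ Icc 1 X

lemma mem_Box {X : ℕ} {x : ℕ × ℕ} : x ∈ Box X ↔ (1 ≤ x.1 ∧ x.1 ≤ X) ∧ (1 ≤ x.2 ∧ x.2 ≤ X) := by
  rw [Box, mem_product, mem_Icc, mem_Icc]

lemma lcm_pos' {X : ℕ} {x : ℕ × ℕ} (hx : x ∈ Box X) : 1 ≤ Nat.lcm x.1 x.2 := by
  rw [mem_Box] at hx
  exact Nat.lcm_pos hx.1.1 hx.2.1

/-- the mean over all pairs -/
theorem all_pairs (K : ℕ) {X : ℕ} (hX : 1 ≤ X) (F : Finset (ℕ × ℕ)) (hF : F ⊆ Box X) :
    ∑ x ∈ F, (T (K + 1) (Nat.lcm x.1 x.2) : ℝ) / (Nat.lcm x.1 x.2 : ℕ) ≤ (1 + Real.log (X * X : ℕ)) ^ ((K + 1) * 4) := by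
  classical
  have hmap : ∀ x ∈ F, Nat.lcm x.1 x.2 ∈ Icc 1 (X * X) := by
    intro x hx
    have h1 := mem_Box.1 (hF hx)
    rw [mem_Icc]
    refine ⟨lcm_pos' (hF hx), ?_⟩
    calc Nat.lcm x.1 x.2 ≤ x.1 * x.2 := Nat.le_of_dvd (Nat.mul_pos h1.1.1 h1.2.1) (Nat.lcm_dvd_mul _ _)
      _ ≤ X * X := Nat.mul_le_mul h1.1.2 h1.2.2
  rw [← sum_fiberwise_of_maps_to hmap]
  refine le_trans ?_ (T_sum ((K + 1) * 4) (X * X) (Nat.mul_pos hX hX))
  apply sum_le_sum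
  intro l hl
  rw [mem_Icc] at hl
  have h1 : ∑ x ∈ F with Nat.lcm x.1 x.2 = l, (T (K + 1) (Nat.lcm x.1 x.2) : ℝ) / (Nat.lcm x.1 x.2 : ℕ) =
      ((F.filter (fun x => Nat.lcm x.1 x.2 = l)).card : ℝ) * ((T (K + 1) l : ℝ) / l) := by
    rw [← nsmul_eq_mul, ← sum_const]
    apply sum_congr rfl
    intro x hx
    rw [(mem_filter.1 hx).2]
  rw [h1]
  have h2 : (F.filter (fun x => Nat.lcm x.1 x.2 = l)).card ≤ T 2 l * T 2 l := by
    rw [T_two hl.1, ← card_product]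
    apply card_le_card
    intro x hx
    rw [mem_filter] at hx
    rw [mem_product, Nat.mem_divisors, Nat.mem_divisors, ← hx.2]
    have := lcm_pos' (hF hx.1)
    exact ⟨⟨Nat.dvd_lcm_left _ _, by omega⟩, ⟨Nat.dvd_lcm_right _ _, by omega⟩⟩
  have h3 : T 2 l * T 2 l ≤ T 4 l := T_mul 1 1 hl.1
  have h4 : T (K + 1) l * T 4 l ≤ T ((K + 1) * 4) l := T_mul K 3 hl.1
  have h5 : (F.filter (fun x => Nat.lcm x.1 x.2 = l)).card * T (K + 1) l ≤ T ((K + 1) * 4) l := by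
    refine le_trans ?_ h4
    rw [mul_comm]
    exact Nat.mul_le_mul_left _ (h2.trans h3)
  have h6 : ((F.filter (fun x => Nat.lcm x.1 x.2 = l)).card : ℝ) * (T (K + 1) l : ℝ) ≤ T ((K + 1) * 4) l := by
    exact_mod_cast h5
  rw [← mul_div_assoc]
  exact div_le_div_of_nonneg_right h6 (Nat.cast_nonneg _)

/-- the pairs with a given greatest common divisor and a given linear combination -/
lemma fiber {X : ℕ} (hX : 1 ≤ X) (Q : Finset (ℕ × ℕ)) (hQ : Q ⊆ Box X) {g w U : ℕ} (hg : 1 ≤ g) (hw : 1 ≤ w) {u v : ℤ}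
    (hu : |u| ≤ U) (hv : |v| ≤ U) (hgcd : ∀ x ∈ Q, Nat.gcd x.1 x.2 = g) (hlin : ∀ x ∈ Q, (w : ℤ) = u * x.1 + v * x.2) :
    ∑ x ∈ Q, (1 : ℝ) / (Nat.lcm x.1 x.2 : ℕ) ≤ 4 * U * (1 + Real.log X) / w := by
  classical
  have hw0 : (0 : ℝ) < w := by exact_mod_cast hw
  have hg0 : (0 : ℝ) < g := by exact_mod_cast hg
  have hlX : 0 ≤ 1 + Real.log X := by
    have := Real.log_nonneg (by exact_mod_cast hX : (1 : ℝ) ≤ X)
    linarith
  obtain ⟨Q₁, hQ₁⟩ : ∃ Q₁ : Finset (ℕ × ℕ), Q₁ = Q.filter (fun x => u ≠ 0 ∧ w ≤ 2 * U * x.1) := ⟨_, rfl⟩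
  obtain ⟨Q₂, hQ₂⟩ : ∃ Q₂ : Finset (ℕ × ℕ), Q₂ = Q.filter (fun x => v ≠ 0 ∧ w ≤ 2 * U * x.2) := ⟨_, rfl⟩
  have hcov : Q ⊆ Q₁ ∪ Q₂ := by
    intro x hx
    rw [mem_union, hQ₁, hQ₂, mem_filter, mem_filter]
    have h1 := hlin x hx
    by_contra hcon
    push Not at hcon
    obtain ⟨c1, c2⟩ := hcon
    have c1' := c1 hx
    have c2' := c2 hx
    have hx1 : (0 : ℤ) ≤ x.1 := Int.natCast_nonneg _
    have hx2 : (0 : ℤ) ≤ x.2 := Int.natCast_nonneg _
    have d1 : 2 * (u * x.1) < w := by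
      rcases eq_or_ne u 0 with h | h
      · rw [h, zero_mul, mul_zero]
        exact_mod_cast hw
      · have h2 := c1' h
        have h3 : (2 * U * x.1 : ℤ) < w := by exact_mod_cast h2
        have h4 : u * x.1 ≤ U * x.1 := mul_le_mul_of_nonneg_right ((le_abs_self u).trans hu) hx1
        linarith
    have d2 : 2 * (v * x.2) < w := by
      rcases eq_or_ne v 0 with h | h
      · rw [h, zero_mul, mul_zero]
        exact_mod_cast hw
      · have h2 := c2' h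
        have h3 : (2 * U * x.2 : ℤ) < w := by exact_mod_cast h2
        have h4 : v * x.2 ≤ U * x.2 := mul_le_mul_of_nonneg_right ((le_abs_self v).trans hv) hx2
        linarith
    linarith
  have hrec : ∀ x ∈ Q, (1 : ℝ) / (Nat.lcm x.1 x.2 : ℕ) = g / (x.1 * x.2) := by
    intro x hx
    have hxB := mem_Box.1 (hQ hx)
    have h1 : (g : ℝ) * (Nat.lcm x.1 x.2 : ℕ) = x.1 * x.2 := by
      rw [← hgcd x hx]
      exact_mod_cast Nat.gcd_mul_lcm x.1 x.2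
    have h2 : (0 : ℝ) < (Nat.lcm x.1 x.2 : ℕ) := by exact_mod_cast lcm_pos' (hQ hx)
    rw [← h1]
    field_simp
  have hS₁ : ∑ x ∈ Q₁, (1 : ℝ) / (Nat.lcm x.1 x.2 : ℕ) ≤ 2 * U * (1 + Real.log X) / w := by
    have hsub : Q₁ ⊆ Q := by rw [hQ₁]; exact filter_subset _ _
    have h1 : ∀ x ∈ Q₁, (1 : ℝ) / (Nat.lcm x.1 x.2 : ℕ) ≤ (2 * U * g / w) * (1 / x.2) := by
      intro x hx
      have hxB := mem_Box.1 (hQ (hsub hx))
      rw [hrec x (hsub hx)]
      have h2 : (w : ℝ) ≤ 2 * U * x.1 := by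
        rw [hQ₁, mem_filter] at hx
        exact_mod_cast hx.2.2
      have h3 : (0 : ℝ) < x.1 := by exact_mod_cast hxB.1.1
      have h4 : (0 : ℝ) < x.2 := by exact_mod_cast hxB.2.1
      rw [div_mul_div_comm, mul_one, div_le_div_iff₀ (by positivity) (by positivity)]
      have h5 : (g : ℝ) * x.2 * w ≤ (g : ℝ) * x.2 * (2 * U * x.1) := mul_le_mul_of_nonneg_left h2 (by positivity)
      linarith
    refine (sum_le_sum h1).trans ?_
    rw [← mul_sum]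
    have h2 := recip_multiples Q₁ (fun x => x.2) (by
      intro x hx y hy hxy
      have hx' := hlin x (hsub hx)
      have hy' := hlin y (hsub hy)
      simp only at hxy
      have hu0 : u ≠ 0 := by
        have := hx
        rw [mem_coe, hQ₁, mem_filter] at this
        exact this.2.1
      have h3 : u * x.1 = u * y.1 := by
        rw [hxy] at hx'
        linarith
      have h4 : (x.1 : ℤ) = y.1 := mul_left_cancel₀ hu0 h3
      exact Prod.ext (by exact_mod_cast h4) hxy) hg (Y := X) (by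
      intro x hx
      have hxB := mem_Box.1 (hQ (hsub hx))
      refine ⟨hxB.2.1, hxB.2.2, ?_⟩
      rw [← hgcd x (hsub hx)]
      exact Nat.gcd_dvd_right _ _)
    calc (2 * U * g / w : ℝ) * ∑ x ∈ Q₁, (1 : ℝ) / x.2 ≤ (2 * U * g / w : ℝ) * (1 / g * (1 + Real.log X)) :=
          mul_le_mul_of_nonneg_left h2 (by positivity)
      _ = _ := by field_simp
  have hS₂ : ∑ x ∈ Q₂, (1 : ℝ) / (Nat.lcm x.1 x.2 : ℕ) ≤ 2 * U * (1 + Real.log X) / w := by
    have hsub : Q₂ ⊆ Q := by rw [hQ₂]; exact filter_subset _ _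
    have h1 : ∀ x ∈ Q₂, (1 : ℝ) / (Nat.lcm x.1 x.2 : ℕ) ≤ (2 * U * g / w) * (1 / x.1) := by
      intro x hx
      have hxB := mem_Box.1 (hQ (hsub hx))
      rw [hrec x (hsub hx)]
      have h2 : (w : ℝ) ≤ 2 * U * x.2 := by
        rw [hQ₂, mem_filter] at hx
        exact_mod_cast hx.2.2
      have h3 : (0 : ℝ) < x.1 := by exact_mod_cast hxB.1.1
      have h4 : (0 : ℝ) < x.2 := by exact_mod_cast hxB.2.1
      rw [div_mul_div_comm, mul_one, div_le_div_iff₀ (by positivity) (by positivity)]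
      have h5 : (g : ℝ) * x.1 * w ≤ (g : ℝ) * x.1 * (2 * U * x.2) := mul_le_mul_of_nonneg_left h2 (by positivity)
      linarith
    refine (sum_le_sum h1).trans ?_
    rw [← mul_sum]
    have h2 := recip_multiples Q₂ (fun x => x.1) (by
      intro x hx y hy hxy
      have hx' := hlin x (hsub hx)
      have hy' := hlin y (hsub hy)
      simp only at hxy
      have hv0 : v ≠ 0 := by
        have := hx
        rw [mem_coe, hQ₂, mem_filter] at this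
        exact this.2.1
      have h3 : v * x.2 = v * y.2 := by
        rw [hxy] at hx'
        linarith
      have h4 : (x.2 : ℤ) = y.2 := mul_left_cancel₀ hv0 h3
      exact Prod.ext hxy (by exact_mod_cast h4)) hg (Y := X) (by
      intro x hx
      have hxB := mem_Box.1 (hQ (hsub hx))
      refine ⟨hxB.1.1, hxB.1.2, ?_⟩
      rw [← hgcd x (hsub hx)]
      exact Nat.gcd_dvd_left _ _)
    calc (2 * U * g / w : ℝ) * ∑ x ∈ Q₂, (1 : ℝ) / x.1 ≤ (2 * U * g / w : ℝ) * (1 / g * (1 + Real.log X)) :=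
          mul_le_mul_of_nonneg_left h2 (by positivity)
      _ = _ := by field_simp
  calc ∑ x ∈ Q, (1 : ℝ) / (Nat.lcm x.1 x.2 : ℕ) ≤ ∑ x ∈ Q₁ ∪ Q₂, (1 : ℝ) / (Nat.lcm x.1 x.2 : ℕ) :=
        sum_le_sum_of_subset_of_nonneg hcov (fun _ _ _ => by positivity)
    _ ≤ ∑ x ∈ Q₁, (1 : ℝ) / (Nat.lcm x.1 x.2 : ℕ) + ∑ x ∈ Q₂, (1 : ℝ) / (Nat.lcm x.1 x.2 : ℕ) := by
        have h1 := sum_union_inter (s₁ := Q₁) (s₂ := Q₂) (f := fun x : ℕ × ℕ => (1 : ℝ) / (Nat.lcm x.1 x.2 : ℕ))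
        have h2 : 0 ≤ ∑ x ∈ Q₁ ∩ Q₂, (1 : ℝ) / (Nat.lcm x.1 x.2 : ℕ) := sum_nonneg (fun _ _ => by positivity)
        linarith
    _ ≤ 2 * U * (1 + Real.log X) / w + 2 * U * (1 + Real.log X) / w := add_le_add hS₁ hS₂
    _ = _ := by ring

/-- the pairs with a given linear combination -/
lemma fiber_w {X : ℕ} (hX : 1 ≤ X) (Q : Finset (ℕ × ℕ)) (hQ : Q ⊆ Box X) {w U : ℕ} (hw : 1 ≤ w) {u v : ℤ}
    (hu : |u| ≤ U) (hv : |v| ≤ U) (hlin : ∀ x ∈ Q, (w : ℤ) = u * x.1 + v * x.2) :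
    ∑ x ∈ Q, (1 : ℝ) / (Nat.lcm x.1 x.2 : ℕ) ≤ 4 * U * (1 + Real.log X) * ((T 2 w : ℝ) / w) := by
  classical
  have hmap : ∀ x ∈ Q, Nat.gcd x.1 x.2 ∈ w.divisors := by
    intro x hx
    rw [Nat.mem_divisors]
    refine ⟨?_, by omega⟩
    have h1 : ((Nat.gcd x.1 x.2 : ℕ) : ℤ) ∣ (w : ℤ) := by
      rw [hlin x hx]
      exact dvd_add (Dvd.dvd.mul_left (by exact_mod_cast Nat.gcd_dvd_left _ _) _)
        (Dvd.dvd.mul_left (by exact_mod_cast Nat.gcd_dvd_right _ _) _)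
    exact_mod_cast h1
  rw [← sum_fiberwise_of_maps_to hmap]
  calc ∑ g ∈ w.divisors, ∑ x ∈ Q with Nat.gcd x.1 x.2 = g, (1 : ℝ) / (Nat.lcm x.1 x.2 : ℕ)
      ≤ ∑ _g ∈ w.divisors, 4 * U * (1 + Real.log X) / w := by
        apply sum_le_sum
        intro g hg
        exact fiber hX _ ((filter_subset _ _).trans hQ) (Nat.pos_of_mem_divisors hg) hw hu hv
          (fun x hx => (mem_filter.1 hx).2) (fun x hx => hlin x (mem_filter.1 hx).1)
    _ = _ := by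
        rw [sum_const, nsmul_eq_mul, T_two hw]
        ring

/-- **the pairs with a linear combination in a set** -/
theorem pairs_in {X : ℕ} (hX : 1 ≤ X) {W : Finset ℕ} (hW : ∀ w ∈ W, 1 ≤ w) (Q : Finset (ℕ × ℕ)) (hQ : Q ⊆ Box X) {U : ℕ}
    {u v : ℤ} (hu : |u| ≤ U) (hv : |v| ≤ U) (hlin : ∀ x ∈ Q, ∃ w ∈ W, (w : ℤ) = u * x.1 + v * x.2) :
    ∑ x ∈ Q, (1 : ℝ) / (Nat.lcm x.1 x.2 : ℕ) ≤ 4 * U * (1 + Real.log X) * ∑ w ∈ W, (T 2 w : ℝ) / w := by
  classical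
  have hmap : ∀ x ∈ Q, (u * x.1 + v * x.2).toNat ∈ W := by
    intro x hx
    obtain ⟨w, hw, h⟩ := hlin x hx
    rw [← h]
    simpa using hw
  rw [← sum_fiberwise_of_maps_to hmap, mul_sum]
  apply sum_le_sum
  intro w hw
  refine fiber_w hX _ ((filter_subset _ _).trans hQ) (hW w hw) hu hv (fun x hx => ?_)
  rw [mem_filter] at hx
  obtain ⟨w', hw', h⟩ := hlin x hx.1
  rw [← hx.2, ← h]
  simp

end Pool.Agent.U536.DS
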