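import Mathlib
import Pool.Agent.U536.CF.P
import Pool.Agent.U536.DS.Def
import Pool.Agent.U536.DS.M

set_option autoImplicit false

/-! Linear combinations of two divisors of the values of multiplicative functions avoid sets with a power saving
(helper536). -/

namespace Pool.Agent.U536.DS

open Finset Classical
open Pool.Agent.N733.TG (LM)
open Pool.Agent.U536.CF

/-- the whole estimate, numbers -/
lemma num2 {K U : ℕ} {L l S Lb Laq Lc κ₂ s₀ γ q C₀ V lX lY lXX : ℝ} (hL : 100 ≤ L) (hexpl : Real.exp l = L) (hl : 1 ≤ l)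
    (hLcS : Lc ≤ S) (hC₀ : 0 ≤ C₀) (hC₀L : 2 * C₀ ≤ L) (hs₀ : s₀ < 1) (hq : 1 < q) (hγ : γ = (1 - s₀) / 2 * (1 - 1 / q))
    (hV : V = Real.exp Lb) (hlX0 : 0 ≤ lX) (hlX : 1 + lX ≤ L * L) (hlY0 : 0 ≤ lY) (hlY : 1 + 2 * lY ≤ L * L)
    (hlXX0 : 0 ≤ lXX) (hlXX : 1 + lXX ≤ L * L) (hK : (K : ℝ) + 1 ≤ κ₂ * Laq) (hK2 : 8 * κ₂ * (Laq * l) ≤ S)
    (hlS : 10 * l ≤ S) (hS : 11 * S ≤ γ * Lb) (hU : (U : ℝ) ≤ Real.exp S) :
    (2 * (U : ℝ) + 1) ^ 2 * (Real.exp S * ((4 * U * (1 + lX) * (((1 + 2 * lY) * (2 * C₀ * V ^ (s₀ - 1))) ^ ((1 : ℝ) - 1 / 2) *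
      ((1 + lY) ^ (8 + 1)) ^ ((1 : ℝ) / 2))) ^ (1 - 1 / q) * ((1 + lXX) ^ ((K + 1) * 4)) ^ (1 / q))) ≤ Real.exp (-Lc) / 2 := by
  have hL0 : 0 < L := by linarith
  have hq0 : 0 < q := by linarith
  have hqi : 0 < 1 / q := by positivity
  have hqi1 : 1 / q < 1 := by rw [div_lt_one hq0]; exact hq
  have hLL : L * L = Real.exp (2 * l) := by
    rw [show 2 * l = l + l by ring, Real.exp_add, hexpl]
  rw [hLL] at hlX hlY hlXX
  have hS1 : 10 ≤ S := by linarith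
  have hU0 : (0 : ℝ) ≤ U := Nat.cast_nonneg _
  -- the first factor
  have g1 : (2 * (U : ℝ) + 1) ^ 2 ≤ Real.exp (4 * S) := by
    have h1 : 2 * (U : ℝ) + 1 ≤ Real.exp (2 * S) := by
      have h2 : (3 : ℝ) ≤ Real.exp S := by
        have := Real.add_one_le_exp S
        linarith
      have h3 : (1 : ℝ) ≤ Real.exp S := by linarith
      calc 2 * (U : ℝ) + 1 ≤ 3 * Real.exp S := by linarith
        _ ≤ Real.exp S * Real.exp S := mul_le_mul_of_nonneg_right h2 (Real.exp_pos _).le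
        _ = Real.exp (2 * S) := by rw [← Real.exp_add]; congr 1; ring
    calc (2 * (U : ℝ) + 1) ^ 2 ≤ (Real.exp (2 * S)) ^ 2 := pow_le_pow_left₀ (by positivity) h1 2
      _ = Real.exp (4 * S) := by rw [← Real.exp_nat_mul]; congr 1; push_cast; ring
  -- the sum over the set
  have hV0 : 0 < V := by rw [hV]; exact Real.exp_pos _
  have e1 : V ^ (s₀ - 1) = Real.exp (-((1 - s₀) * Lb)) := by
    rw [hV, ← Real.exp_mul]
    congr 1
    ring
  have g2 : ((1 + 2 * lY) * (2 * C₀ * V ^ (s₀ - 1))) ^ ((1 : ℝ) - 1 / 2) ≤ Real.exp ((3 * l - (1 - s₀) * Lb) / 2) := by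
    have h1 : (1 + 2 * lY) * (2 * C₀ * V ^ (s₀ - 1)) ≤ Real.exp (3 * l - (1 - s₀) * Lb) := by
      calc (1 + 2 * lY) * (2 * C₀ * V ^ (s₀ - 1)) ≤ Real.exp (2 * l) * (Real.exp l * Real.exp (-((1 - s₀) * Lb))) := by
            apply mul_le_mul hlY _ (by positivity) (Real.exp_pos _).le
            rw [e1]
            apply mul_le_mul_of_nonneg_right _ (Real.exp_pos _).le
            rw [hexpl]
            exact hC₀L
        _ = _ := by
            simp only [← Real.exp_add]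
            congr 1
            ring
    calc ((1 + 2 * lY) * (2 * C₀ * V ^ (s₀ - 1))) ^ ((1 : ℝ) - 1 / 2) ≤ (Real.exp (3 * l - (1 - s₀) * Lb)) ^ ((1 : ℝ) - 1 / 2) :=
          Real.rpow_le_rpow (by positivity) h1 (by norm_num)
      _ = _ := by
          rw [← Real.exp_mul]
          congr 1
          ring
  have g3 : ((1 + lY) ^ (8 + 1)) ^ ((1 : ℝ) / 2) ≤ Real.exp (9 * l) := by
    have h1 : 1 + lY ≤ Real.exp (2 * l) := by linarith
    calc ((1 + lY) ^ (8 + 1)) ^ ((1 : ℝ) / 2) ≤ ((Real.exp (2 * l)) ^ (8 + 1)) ^ ((1 : ℝ) / 2) := by gcongr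
      _ = _ := by
          rw [← Real.exp_nat_mul, ← Real.exp_mul]
          congr 1
          push_cast
          ring
  have g4 : 4 * (U : ℝ) * (1 + lX) ≤ Real.exp (S + 3 * l) := by
    calc 4 * (U : ℝ) * (1 + lX) ≤ Real.exp l * Real.exp S * Real.exp (2 * l) := by
          apply mul_le_mul _ hlX (by positivity) (by positivity)
          apply mul_le_mul _ hU hU0 (Real.exp_pos _).le
          rw [hexpl]
          linarith
      _ = _ := by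
          simp only [← Real.exp_add]
          congr 1
          ring
  obtain ⟨B, hB⟩ : ∃ B, B = ((1 + 2 * lY) * (2 * C₀ * V ^ (s₀ - 1))) ^ ((1 : ℝ) - 1 / 2) *
      ((1 + lY) ^ (8 + 1)) ^ ((1 : ℝ) / 2) := ⟨_, rfl⟩
  rw [← hB]
  have hB0 : 0 ≤ B := by rw [hB]; positivity
  have hB1 : B ≤ Real.exp ((3 * l - (1 - s₀) * Lb) / 2) * Real.exp (9 * l) := by
    rw [hB]
    exact mul_le_mul g2 g3 (by positivity) (Real.exp_pos _).le
  have g5 : (4 * U * (1 + lX) * B) ^ (1 - 1 / q) ≤ Real.exp (2 * S + 6 * l - γ * Lb) := by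
    have h1 : 4 * U * (1 + lX) * B ≤ Real.exp ((S + 14 * l) - (1 - s₀) / 2 * Lb) := by
      calc 4 * U * (1 + lX) * B ≤ Real.exp (S + 3 * l) * (Real.exp ((3 * l - (1 - s₀) * Lb) / 2) * Real.exp (9 * l)) :=
            mul_le_mul g4 hB1 hB0 (Real.exp_pos _).le
        _ = Real.exp (S + 3 * l + ((3 * l - (1 - s₀) * Lb) / 2 + 9 * l)) := by
            simp only [← Real.exp_add]
        _ ≤ _ := Real.exp_le_exp.2 (by linarith)
    calc (4 * U * (1 + lX) * B) ^ (1 - 1 / q) ≤ (Real.exp ((S + 14 * l) - (1 - s₀) / 2 * Lb)) ^ (1 - 1 / q) :=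
          Real.rpow_le_rpow (by positivity) h1 (by linarith)
      _ = Real.exp ((S + 14 * l) * (1 - 1 / q) - γ * Lb) := by
          rw [← Real.exp_mul, hγ]
          congr 1
          ring
      _ ≤ _ := by
          apply Real.exp_le_exp.2
          have h2 : (S + 14 * l) * (1 - 1 / q) ≤ (S + 14 * l) * 1 := mul_le_mul_of_nonneg_left (by linarith) (by linarith)
          linarith
  have g6 : ((1 + lXX) ^ ((K + 1) * 4)) ^ (1 / q) ≤ Real.exp S := by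
    have e0 : (1 : ℝ) ≤ (1 + lXX) ^ ((K + 1) * 4) := one_le_pow₀ (by linarith)
    calc ((1 + lXX) ^ ((K + 1) * 4)) ^ (1 / q) ≤ ((1 + lXX) ^ ((K + 1) * 4)) ^ (1 : ℝ) :=
          Real.rpow_le_rpow_of_exponent_le e0 hqi1.le
      _ = (1 + lXX) ^ ((K + 1) * 4) := Real.rpow_one _
      _ ≤ (Real.exp (2 * l)) ^ ((K + 1) * 4) := by gcongr
      _ = Real.exp (((K : ℝ) + 1) * (8 * l)) := by
          rw [← Real.exp_nat_mul]
          congr 1
          push_cast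
          ring
      _ ≤ Real.exp S := by
          apply Real.exp_le_exp.2
          refine le_trans ?_ hK2
          calc ((K : ℝ) + 1) * (8 * l) ≤ (κ₂ * Laq) * (8 * l) := mul_le_mul_of_nonneg_right hK (by linarith)
            _ = 8 * κ₂ * (Laq * l) := by ring
  have hD0 : 0 ≤ ((1 + lXX) ^ ((K + 1) * 4)) ^ (1 / q) := by positivity
  have hA0 : 0 ≤ (4 * U * (1 + lX) * B) ^ (1 - 1 / q) := by positivity
  calc (2 * (U : ℝ) + 1) ^ 2 * (Real.exp S * ((4 * U * (1 + lX) * B) ^ (1 - 1 / q) *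
        ((1 + lXX) ^ ((K + 1) * 4)) ^ (1 / q)))
      ≤ Real.exp (4 * S) * (Real.exp S * (Real.exp (2 * S + 6 * l - γ * Lb) * Real.exp S)) := by
        apply mul_le_mul g1 _ (by positivity) (Real.exp_pos _).le
        apply mul_le_mul_of_nonneg_left _ (Real.exp_pos _).le
        exact mul_le_mul g5 g6 hD0 (Real.exp_pos _).le
    _ = Real.exp (8 * S + 6 * l - γ * Lb) := by
        simp only [← Real.exp_add]
        congr 1
        ring
    _ ≤ Real.exp (-Lc) / 2 := by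
        have h2 : (2 : ℝ) ≤ Real.exp 1 := by
          have := Real.add_one_le_exp (1 : ℝ)
          linarith
        rw [le_div_iff₀ (by norm_num)]
        calc Real.exp (8 * S + 6 * l - γ * Lb) * 2 ≤ Real.exp (8 * S + 6 * l - γ * Lb) * Real.exp 1 :=
              mul_le_mul_of_nonneg_left h2 (Real.exp_pos _).le
          _ = Real.exp (8 * S + 6 * l - γ * Lb + 1) := by rw [← Real.exp_add]
          _ ≤ _ := Real.exp_le_exp.2 (by linarith)

/-- **Linear combinations of two divisors.** If `W` has at most `C₀ X^s₀` elements up to `X`, `s₀ < 1`, then for all `m ≤ N` but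
`N exp (-(log N)^c)` no `w ≥ exp ((log N)^b)` of the form `w = u d + v e` with divisors `d`, `e` of `f m` and integers `u`, `v`
with `|u|, |v| ≤ exp ((log N)^θ)` is in `W`; `θ < b`, `1/2 < b < 1`, `c < 2 b - 1`. -/
theorem avoid2 {f : ℕ → ℕ} (hf : LM f) {s₀ : ℝ} (hs0 : 0 ≤ s₀) (hs1 : s₀ < 1) (C₀ : ℝ) {θ b c : ℝ} (hθ : θ < b) (hb : b < 1)
    (hc0 : 0 ≤ c) (hcb : c < 2 * b - 1) :
    ∃ N₀ : ℕ, ∀ W : Set ℕ, (∀ X : ℕ, 1 ≤ X → (((Icc 1 X).filter (fun v => v ∈ W)).card : ℝ) ≤ C₀ * (X : ℝ) ^ s₀) →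
      ∀ N : ℕ, N₀ ≤ N → ({m : ℕ | 1 ≤ m ∧ m ≤ N ∧ ∃ w ∈ W, Comb f b θ N m w}.ncard : ℝ) ≤
        N * Real.exp (-(Real.log N ^ c)) := by
  -- the exponents
  obtain ⟨c₁, a, s, q, aq, haq, hc₁0, hcc₁, h_as, h_aqs, h_sb, h_c, h_a1, h_cs, ha0, hq1, haq0, hθs⟩ :
      ∃ c₁ a s q aq : ℝ, aq = a * q ∧ 0 ≤ c₁ ∧ c < c₁ ∧ a < s ∧ aq < s ∧ s < b ∧ c₁ < 2 * a - 1 ∧ a < 1 ∧ c < s ∧ 0 < a ∧
        1 < q ∧ 0 ≤ aq ∧ θ < s := by
    obtain ⟨c₁, hc₁⟩ : ∃ c₁ : ℝ, c₁ = ((2 * b - 1) + c) / 2 := ⟨_, rfl⟩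
    have hc1 : c < c₁ := by rw [hc₁]; linarith
    have hc2 : c₁ < 2 * b - 1 := by rw [hc₁]; linarith
    obtain ⟨a, ha⟩ : ∃ a : ℝ, a = ((1 + c₁) / 2 + b) / 2 := ⟨_, rfl⟩
    have ha1 : (1 + c₁) / 2 < a := by rw [ha]; linarith
    have hab : a < b := by rw [ha]; linarith
    have ha0 : 0 < a := by linarith
    obtain ⟨q, hq⟩ : ∃ q : ℝ, q = (1 + b / a) / 2 := ⟨_, rfl⟩
    have hba : 1 < b / a := by rw [lt_div_iff₀ ha0]; linarith
    have hq1 : 1 < q := by rw [hq]; linarith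
    have hq0 : 0 < q := by linarith
    have haq' : a * q = (a + b) / 2 := by
      rw [hq]
      field_simp
    obtain ⟨s, hs⟩ : ∃ s : ℝ, s = max ((a * q + b) / 2) ((θ + b) / 2) := ⟨_, rfl⟩
    have hs2 : (a * q + b) / 2 ≤ s := by rw [hs]; exact le_max_left _ _
    have hs3 : (θ + b) / 2 ≤ s := by rw [hs]; exact le_max_right _ _
    have hsb : s < b := by
      rw [hs]
      apply max_lt <;> linarith
    refine ⟨c₁, a, s, q, a * q, rfl, ?_, ?_, ?_, ?_, ?_, ?_, ?_, ?_, ha0, hq1, by positivity, ?_⟩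
    all_goals linarith
  have hq0 : 0 < q := lt_trans one_pos hq1
  obtain ⟨γ, hγd⟩ : ∃ γ : ℝ, γ = (1 - s₀) / 2 * (1 - 1 / q) := ⟨_, rfl⟩
  have hγ : 0 < γ := by
    have : 1 / q < 1 := by rw [div_lt_one hq0]; exact hq1
    rw [hγd]
    exact mul_pos (by linarith) (by linarith)
  obtain ⟨N₁, hN₁⟩ := pw hf h_as h_a1 hc₁0 h_c
  obtain ⟨C, D, hCD⟩ := hf.growth
  obtain ⟨R, r0, r1, r2, r3, r4⟩ : ∃ R : ℝ, 100 ≤ R ∧ 2 * |C₀| ≤ R ∧ 2 * (((C + 1 : ℕ) : ℝ) + D) + 6 ≤ R ∧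
      8 * ((2 : ℝ) ^ q + 2) ≤ R ∧ 11 / γ ≤ R := by
    have p3 : (0 : ℝ) < 8 * (2 ^ q + 2) := by positivity
    have p4 : (0 : ℝ) < 11 / γ := by positivity
    have p5 : (0 : ℝ) ≤ 2 * (((C + 1 : ℕ) : ℝ) + D) + 6 := by positivity
    have p6 : (0 : ℝ) ≤ 2 * |C₀| := by positivity
    refine ⟨100 + 2 * |C₀| + (2 * (((C + 1 : ℕ) : ℝ) + D) + 6) + 8 * (2 ^ q + 2) + 11 / γ, ?_, ?_, ?_, ?_, ?_⟩ <;> linarith
  have t1 : Filter.Tendsto (fun N : ℕ => Real.log (N : ℝ)) Filter.atTop Filter.atTop :=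
    Real.tendsto_log_atTop.comp tendsto_natCast_atTop_atTop
  have g := (Filter.eventually_ge_atTop R).and ((Real.tendsto_log_atTop.eventually_ge_atTop 1).and
    ((ev h_sb R).and ((ev h_aqs R).and ((ev hcc₁ R).and (ev h_cs R)))))
  obtain ⟨N₂, hN₂⟩ := Filter.eventually_atTop.1 ((t1.eventually g).and (Filter.eventually_ge_atTop 3))
  refine ⟨max N₁ N₂, fun W hW N hN => ?_⟩
  obtain ⟨⟨k0, k1, k2, k3, k4, k5⟩, hN3⟩ := hN₂ N ((le_max_right _ _).trans hN)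
  clear hN₂ g t1
  obtain ⟨E, hE1, hE2⟩ := hN₁ N ((le_max_left _ _).trans hN)
  have hN1 : 1 ≤ N := le_trans (by norm_num) hN3
  have hN0 : (0 : ℝ) < N := by exact_mod_cast hN1
  obtain ⟨L, hL⟩ : ∃ L, L = Real.log N := ⟨_, rfl⟩
  rw [← hL] at k0 k1 k2 k3 k4 k5 hE1 ⊢
  simp only [← hL] at hE2
  obtain ⟨l, hl⟩ : ∃ l, l = Real.log L := ⟨_, rfl⟩
  rw [← hl] at k1 k2 k3 k4 k5
  have hR0 : 0 ≤ R := le_trans (by norm_num) r0
  have hL100 : 100 ≤ L := r0.trans k0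
  have hL0 : 0 < L := lt_of_lt_of_le (by norm_num) hL100
  have hL1 : 1 ≤ L := le_trans (by norm_num) hL100
  have hl0 : 0 ≤ l := zero_le_one.trans k1
  have hexpl : Real.exp l = L := by rw [hl]; exact Real.exp_log hL0
  have hexpL : Real.exp L = N := by rw [hL]; exact Real.exp_log hN0
  obtain ⟨S, hS⟩ : ∃ S : ℝ, S = L ^ s := ⟨_, rfl⟩
  rw [← hS] at k2 k3 k5
  simp only [← hS] at hE2
  have hS1 : 1 ≤ S := by rw [hS]; exact Real.one_le_rpow hL1 (ha0.le.trans h_as.le)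
  have hS0 : 0 ≤ S := zero_le_one.trans hS1
  have hSL : S ≤ L := by
    rw [hS]
    calc L ^ s ≤ L ^ (1 : ℝ) := Real.rpow_le_rpow_of_exponent_le hL1 (by linarith only [h_sb, hb])
      _ = L := Real.rpow_one _
  have hθS : L ^ θ ≤ S := by
    rw [hS]
    exact Real.rpow_le_rpow_of_exponent_le hL1 hθs.le
  have hLc1 : 1 ≤ L ^ c := Real.one_le_rpow hL1 hc0
  have hLc0 : 0 ≤ L ^ c := zero_le_one.trans hLc1
  have hLaq1 : 1 ≤ L ^ aq := Real.one_le_rpow hL1 haq0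
  have u2 : R * S ≤ L ^ b := mul_l hR0 hS0 k1 k2
  have u3 : R * l ≤ S := mul_l' hR0 hLaq1 hl0 k3
  have u4 : R * L ^ c ≤ L ^ c₁ := mul_l hR0 hLc0 k1 k4
  have u5 : R * L ^ c ≤ S := mul_l hR0 hLc0 k1 k5
  have hLcS : L ^ c ≤ S := le_trans (le_of_eq (one_mul _).symm) (mul_R hLc0 (by linarith only [r0]) u5)
  obtain ⟨A, hA⟩ : ∃ A : ℝ, A = L ^ a := ⟨_, rfl⟩
  simp only [← hA] at hE2
  have hA1 : 1 ≤ A := by rw [hA]; exact Real.one_le_rpow hL1 ha0.le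
  obtain ⟨J, hJ⟩ : ∃ J : ℕ, J = ⌊A⌋₊ := ⟨_, rfl⟩
  have hJA : (J : ℝ) ≤ A := by rw [hJ]; exact Nat.floor_le (by linarith only [hA1])
  simp only [← hJ] at hE2
  obtain ⟨K, hK1, hK2⟩ := num_K hL1 hq0 haq haq0 hA hA1 hJA
  have h8 : 11 * S ≤ γ * L ^ b := by
    have e6 : 11 / γ * S ≤ L ^ b := mul_R hS0 r4 u2
    rw [div_mul_eq_mul_div, div_le_iff₀ hγ] at e6
    linarith only [e6]
  -- the sizes
  obtain ⟨U, hU⟩ : ∃ U : ℕ, U = ⌊Real.exp S⌋₊ := ⟨_, rfl⟩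
  have hU1 : (U : ℝ) ≤ Real.exp S := by rw [hU]; exact Nat.floor_le (Real.exp_pos _).le
  have hUone : 1 ≤ U := by
    rw [hU]
    apply Nat.le_floor
    have := Real.add_one_le_exp S
    push_cast
    linarith only [this, hS1]
  obtain ⟨X, hX⟩ : ∃ X : ℕ, X = (C + 1) * N ^ D := ⟨_, rfl⟩
  have hX1 : 1 ≤ X := by
    rw [hX]
    exact Nat.mul_pos (Nat.succ_pos _) (pow_pos hN1 _)
  have hX1r : (1 : ℝ) ≤ X := by exact_mod_cast hX1
  have hfX : ∀ m : ℕ, 1 ≤ m → m ≤ N → f m ≤ X := by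
    intro m h1 h2
    rw [hX]
    exact (hCD m h1).trans (Nat.mul_le_mul (Nat.le_succ _) (Nat.pow_le_pow_left h2 D))
  have hlX0 : 0 ≤ Real.log X := Real.log_nonneg hX1r
  have hlX : Real.log X ≤ ((C + 1 : ℕ) : ℝ) * L + D * L := by
    rw [hX]
    push_cast
    rw [Real.log_mul (by positivity) (by positivity), Real.log_pow, ← hL]
    have h1 : Real.log ((C : ℝ) + 1) ≤ (C : ℝ) + 1 := log_le_self' (by positivity)
    have h2 : ((C : ℝ) + 1) * 1 ≤ ((C : ℝ) + 1) * L := mul_le_mul_of_nonneg_left hL1 (by positivity)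
    linarith only [h1, h2]
  obtain ⟨Y, hY⟩ : ∃ Y : ℕ, Y = 2 * U * X := ⟨_, rfl⟩
  have hY1 : 1 ≤ Y := by
    rw [hY]
    exact Nat.mul_pos (by omega) hX1
  have hlY0 : 0 ≤ Real.log Y := Real.log_nonneg (by exact_mod_cast hY1)
  have hlY : Real.log Y ≤ 1 + S + Real.log X := by
    rw [hY]
    push_cast
    have hU0 : (0 : ℝ) < U := by exact_mod_cast hUone
    rw [Real.log_mul (by positivity) (by positivity), Real.log_mul (by norm_num) (by positivity)]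
    have h1 : Real.log 2 ≤ 1 := by
      have := Real.log_two_lt_d9
      linarith only [this]
    have h2 : Real.log U ≤ S := by
      rw [← Real.log_exp S]
      exact Real.log_le_log hU0 hU1
    linarith only [h1, h2]
  have hRL : (2 * (((C + 1 : ℕ) : ℝ) + D) + 6) * L ≤ L * L := by
    apply mul_le_mul_of_nonneg_right _ hL0.le
    exact r2.trans k0
  obtain ⟨V, hV⟩ : ∃ V : ℝ, V = Real.exp (L ^ b) := ⟨_, rfl⟩
  have hV0 : 0 < V := by rw [hV]; exact Real.exp_pos _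
  have hW' : ∀ X : ℕ, 1 ≤ X → (((Icc 1 X).filter (fun v => v ∈ W)).card : ℝ) ≤ |C₀| * (X : ℝ) ^ s₀ := fun X hX =>
    (hW X hX).trans (mul_le_mul_of_nonneg_right (le_abs_self _) (by positivity))
  obtain ⟨Wf, hWf⟩ : ∃ Wf : Finset ℕ, Wf = (Icc 1 Y).filter (fun w : ℕ => w ∈ W ∧ V ≤ w) := ⟨_, rfl⟩
  have hsumW : ∑ w ∈ Wf, (T 2 w : ℝ) / w ≤
      ((1 + 2 * Real.log Y) * (2 * |C₀| * V ^ (s₀ - 1))) ^ ((1 : ℝ) - 1 / 2) * ((1 + Real.log Y) ^ (8 + 1)) ^ ((1 : ℝ) / 2) := by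
    rw [hWf]
    exact holder_part hs1.le hW' hV0 hY1 (q := 2) (by norm_num) (J := 2) (K := 8) (by norm_num)
  obtain ⟨Bw, hBw⟩ : ∃ Bw : ℝ, Bw = ((1 + 2 * Real.log Y) * (2 * |C₀| * V ^ (s₀ - 1))) ^ ((1 : ℝ) - 1 / 2) *
      ((1 + Real.log Y) ^ (8 + 1)) ^ ((1 : ℝ) / 2) := ⟨_, rfl⟩
  rw [← hBw] at hsumW
  -- the bad pairs
  obtain ⟨Q, hQ⟩ : ∃ Q : ℤ → ℤ → Finset (ℕ × ℕ), Q = fun (u v : ℤ) =>
    (Box X).filter (fun x => ∃ w ∈ Wf, (w : ℤ) = u * x.1 + v * x.2) := ⟨_, rfl⟩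
  have hcov : (Icc 1 N).filter (fun m => ∃ w ∈ W, Comb f b θ N m w) ⊆ E ∪
      (Icc (-(U : ℤ)) U ×ˢ Icc (-(U : ℤ)) U).biUnion (fun p => (Q p.1 p.2).biUnion (fun x =>
        (Icc 1 N).filter (fun m => m ∉ E ∧ Nat.lcm x.1 x.2 ∣ f m))) := by
    intro m hm
    rw [mem_filter, mem_Icc] at hm
    obtain ⟨⟨hm1, hmN⟩, w, hwW, hwb, d, e, u, v, hd, he, hu, hv, hlin⟩ := hm
    rw [mem_union]
    by_cases hmE : m ∈ E
    · exact Or.inl hmE
    right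
    have hfm := hf.pos m hm1
    have hd1 : 1 ≤ d := Nat.pos_of_dvd_of_pos hd hfm
    have he1 : 1 ≤ e := Nat.pos_of_dvd_of_pos he hfm
    have hdX : d ≤ X := (Nat.le_of_dvd hfm hd).trans (hfX m hm1 hmN)
    have heX : e ≤ X := (Nat.le_of_dvd hfm he).trans (hfX m hm1 hmN)
    rw [← hL] at hwb hu hv
    have habs : ∀ x : ℤ, |(x : ℝ)| ≤ Real.exp (L ^ θ) → |x| ≤ (U : ℤ) := by
      intro x hx
      have h1 : ((x.natAbs : ℕ) : ℝ) ≤ Real.exp S := by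
        rw [Nat.cast_natAbs, Int.cast_abs]
        exact hx.trans (Real.exp_le_exp.2 hθS)
      have h2 : x.natAbs ≤ U := by
        rw [hU]
        exact Nat.le_floor h1
      rw [Int.abs_eq_natAbs]
      exact_mod_cast h2
    have hu' := habs u hu
    have hv' := habs v hv
    rw [mem_biUnion]
    refine ⟨(u, v), ?_, ?_⟩
    · rw [mem_product, mem_Icc, mem_Icc]
      exact ⟨abs_le.1 hu', abs_le.1 hv'⟩
    rw [mem_biUnion]
    refine ⟨(d, e), ?_, ?_⟩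
    · rw [hQ, mem_filter, mem_Box]
      refine ⟨⟨⟨hd1, hdX⟩, ⟨he1, heX⟩⟩, w, ?_, hlin⟩
      rw [hWf, mem_filter, mem_Icc]
      have hw0 : (0 : ℝ) < w := lt_of_lt_of_le (Real.exp_pos _) hwb
      refine ⟨⟨by exact_mod_cast hw0, ?_⟩, hwW, ?_⟩
      · rw [hY]
        have h1 : (w : ℤ) ≤ (2 * U * X : ℕ) := by
          rw [hlin]
          have h2 : u * d ≤ (U : ℤ) * X := by
            calc u * d ≤ (U : ℤ) * d := mul_le_mul_of_nonneg_right ((le_abs_self u).trans hu') (Int.natCast_nonneg _)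
              _ ≤ (U : ℤ) * X := mul_le_mul_of_nonneg_left (by exact_mod_cast hdX) (Int.natCast_nonneg _)
          have h3 : v * e ≤ (U : ℤ) * X := by
            calc v * e ≤ (U : ℤ) * e := mul_le_mul_of_nonneg_right ((le_abs_self v).trans hv') (Int.natCast_nonneg _)
              _ ≤ (U : ℤ) * X := mul_le_mul_of_nonneg_left (by exact_mod_cast heX) (Int.natCast_nonneg _)
          push_cast
          linarith only [h2, h3]
        exact_mod_cast h1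
      · rw [hV]
        exact hwb
    · rw [mem_filter, mem_Icc]
      exact ⟨⟨hm1, hmN⟩, hmE, Nat.lcm_dvd hd he⟩
  have hcard : (((Icc 1 N).filter (fun m => ∃ w ∈ W, Comb f b θ N m w)).card : ℝ) ≤
      (E.card : ℝ) + ∑ p ∈ Icc (-(U : ℤ)) U ×ˢ Icc (-(U : ℤ)) U, ∑ x ∈ Q p.1 p.2,
        (((Icc 1 N).filter (fun m => m ∉ E ∧ Nat.lcm x.1 x.2 ∣ f m)).card : ℝ) := by
    have h1 := (card_le_card hcov).trans ((card_union_le _ _).trans (Nat.add_le_add_left (card_biUnion_le.trans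
      (sum_le_sum (fun j _ => card_biUnion_le))) _))
    exact_mod_cast h1
  have hgoal : ({m : ℕ | 1 ≤ m ∧ m ≤ N ∧ ∃ w ∈ W, Comb f b θ N m w}.ncard : ℝ) =
      (((Icc 1 N).filter (fun m => ∃ w ∈ W, Comb f b θ N m w)).card : ℝ) := by
    rw [← Set.ncard_coe_finset]
    congr 2
    ext m
    simp only [coe_filter, mem_Icc, Set.mem_ofPred_eq, and_assoc]
  rw [hgoal]
  refine hcard.trans ?_
  obtain ⟨Z, hZ⟩ : ∃ Z : ℝ, Z = (4 * U * (1 + Real.log X) * Bw) ^ (1 - 1 / q) *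
      ((1 + Real.log (X * X : ℕ)) ^ ((K + 1) * 4)) ^ (1 / q) := ⟨_, rfl⟩
  have hin : ∀ p ∈ Icc (-(U : ℤ)) U ×ˢ Icc (-(U : ℤ)) U, ∑ x ∈ Q p.1 p.2,
      (((Icc 1 N).filter (fun m => m ∉ E ∧ Nat.lcm x.1 x.2 ∣ f m)).card : ℝ) ≤ N * (Real.exp S * Z) := by
    intro p hp
    rw [mem_product, mem_Icc, mem_Icc] at hp
    have hQB : Q p.1 p.2 ⊆ Box X := by rw [hQ]; exact filter_subset _ _
    have h1 : ∀ x ∈ Q p.1 p.2, (((Icc 1 N).filter (fun m => m ∉ E ∧ Nat.lcm x.1 x.2 ∣ f m)).card : ℝ) ≤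
        N * (Real.exp S * ((T (J + 1) (Nat.lcm x.1 x.2) : ℝ) / (Nat.lcm x.1 x.2 : ℕ))) := fun x hx =>
      hE2 _ (lcm_pos' (hQB hx))
    refine (sum_le_sum h1).trans ?_
    rw [← mul_sum, ← mul_sum]
    apply mul_le_mul_of_nonneg_left _ hN0.le
    apply mul_le_mul_of_nonneg_left _ (Real.exp_pos _).le
    rw [hZ]
    refine holder (Q p.1 p.2) (fun x => Nat.lcm x.1 x.2) (fun x hx => lcm_pos' (hQB hx)) hq1 hK1 ?_ (all_pairs K hX1 _ hQB)
    refine (pairs_in hX1 (W := Wf) (fun w hw => ?_) (Q p.1 p.2) hQB (U := U) (abs_le.2 hp.1) (abs_le.2 hp.2) (fun x hx => ?_)).trans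
      (mul_le_mul_of_nonneg_left hsumW (by positivity))
    · rw [hWf, mem_filter, mem_Icc] at hw
      exact hw.1.1
    · rw [hQ, mem_filter] at hx
      exact hx.2
  have hcardI : ((Icc (-(U : ℤ)) U ×ˢ Icc (-(U : ℤ)) U).card : ℝ) = (2 * (U : ℝ) + 1) ^ 2 := by
    rw [card_product, Int.card_Icc]
    have h1 : ((U : ℤ) + 1 - -(U : ℤ)).toNat = 2 * U + 1 := by omega
    rw [h1]
    push_cast
    ring
  have hsum : ∑ p ∈ Icc (-(U : ℤ)) U ×ˢ Icc (-(U : ℤ)) U, ∑ x ∈ Q p.1 p.2,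
        (((Icc 1 N).filter (fun m => m ∉ E ∧ Nat.lcm x.1 x.2 ∣ f m)).card : ℝ) ≤ N * (Real.exp (-(L ^ c)) / 2) := by
    refine (sum_le_sum hin).trans ?_
    rw [sum_const, nsmul_eq_mul, hcardI]
    have h1 : (2 * (U : ℝ) + 1) ^ 2 * (Real.exp S * Z) ≤ Real.exp (-(L ^ c)) / 2 := by
      rw [hZ, hBw]
      refine num2 hL100 hexpl k1 hLcS (abs_nonneg _) (r1.trans k0) hs1 hq1 hγd hV hlX0 ?_ hlY0 ?_ ?_ ?_ hK2 ?_
        (mul_R hl0 (by linarith only [r0]) u3) h8 hU1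
      · have h2 : 0 ≤ (((C + 1 : ℕ) : ℝ) + D) * L := by positivity
        linarith only [hlX, hRL, hL100, h2]
      · linarith only [hlX, hlY, hRL, hL100, hSL]
      · exact Real.log_nonneg (by exact_mod_cast Nat.mul_pos hX1 hX1)
      · push_cast
        rw [Real.log_mul (by positivity) (by positivity)]
        linarith only [hlX, hRL, hL100]
      · exact mul_R (by positivity) r3 k3
    calc (2 * (U : ℝ) + 1) ^ 2 * (N * (Real.exp S * Z)) = N * ((2 * (U : ℝ) + 1) ^ 2 * (Real.exp S * Z)) := by ring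
      _ ≤ _ := mul_le_mul_of_nonneg_left h1 hN0.le
  have hE : (E.card : ℝ) ≤ N * (Real.exp (-(L ^ c)) / 2) := by
    refine hE1.trans (mul_le_mul_of_nonneg_left ?_ hN0.le)
    have h2 : (2 : ℝ) ≤ Real.exp 1 := by
      have := Real.add_one_le_exp (1 : ℝ)
      linarith only [this]
    rw [le_div_iff₀ (by norm_num)]
    calc Real.exp (-(L ^ c₁)) * 2 ≤ Real.exp (-(L ^ c₁)) * Real.exp 1 := mul_le_mul_of_nonneg_left h2 (Real.exp_pos _).le
      _ = Real.exp (-(L ^ c₁) + 1) := by rw [← Real.exp_add]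
      _ ≤ _ := by
        apply Real.exp_le_exp.2
        have h3 : 2 * L ^ c ≤ L ^ c₁ := mul_R hLc0 (by linarith only [r0]) u4
        linarith only [h3, hLc1]
  calc (E.card : ℝ) + ∑ p ∈ Icc (-(U : ℤ)) U ×ˢ Icc (-(U : ℤ)) U, ∑ x ∈ Q p.1 p.2,
        (((Icc 1 N).filter (fun m => m ∉ E ∧ Nat.lcm x.1 x.2 ∣ f m)).card : ℝ)
      ≤ N * (Real.exp (-(L ^ c)) / 2) + N * (Real.exp (-(L ^ c)) / 2) := add_le_add hE hsum
    _ = N * Real.exp (-(L ^ c)) := by ring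

end Pool.Agent.U536.DS
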