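import Mathlib
import Pool.Agent.U536.CF.TU
import Pool.Agent.U536.DS.A

set_option autoImplicit false

/-! Tuples of linear combinations of two divisors of the values of multiplicative functions avoid sets with a power saving
(helper536). -/

namespace Pool.Agent.U536.DS

open Finset Classical
open Pool.Agent.N733.TG (LM)
open Pool.Agent.U536.CF

/-- for all `i`: `w i ≥ exp ((log N)^b)`, and `w i = u d + v e` with divisors `d`, `e` of `F i (m i)` and integers `u`, `v` with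
`|u|, |v| ≤ exp ((log N)^θ)`; and `w i ≥ (w j)^ρ` for all `j` -/
def CombT {k : ℕ} (F : Fin k → ℕ → ℕ) (b θ ρ : ℝ) (N : ℕ) (m w : Fin k → ℕ) : Prop :=
  ∀ i, Comb (F i) b θ N (m i) (w i) ∧ ∀ j, (w j : ℝ) ^ ρ ≤ (w i : ℝ)

/-- sums and differences of two divisors -/
theorem combT_pm {k : ℕ} {F : Fin k → ℕ → ℕ} {b θ ρ : ℝ} {N : ℕ} {m w : Fin k → ℕ}
    (hw : ∀ i, Real.exp (Real.log N ^ b) ≤ (w i : ℝ))
    (hd : ∀ i, ∃ s t : ℕ, s ∣ F i (m i) ∧ t ∣ F i (m i) ∧ (w i = s + t ∨ w i = s - t ∨ w i = s))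
    (hc : ∀ i j, (w j : ℝ) ^ ρ ≤ (w i : ℝ)) : CombT F b θ ρ N m w := by
  refine fun i => ⟨?_, fun j => hc i j⟩
  obtain ⟨s, t, hs, ht, h | h | h⟩ := hd i
  · rw [h]
    exact (comb_pm hs ht).1 (by rw [← h]; exact hw i)
  · rw [h]
    exact (comb_pm hs ht).2.1 (by rw [← h]; exact hw i)
  · rw [h]
    exact (comb_pm hs ht).2.2 (by rw [← h]; exact hw i)

/-- Hölder's inequality for tuples -/
lemma holderP {ι : Type*} {k : ℕ} (S : Finset ι) (ℓ : ι → Fin k → ℕ) (hS : ∀ x ∈ S, ∀ i, 1 ≤ ℓ x i) {q : ℝ}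
    (hq : 1 < q) {J K : ℕ} (hJK : ((J : ℝ) + 1) ^ q ≤ (K : ℝ) + 1) {A B : ℝ} (hA : ∑ x ∈ S, ∏ i, (1 : ℝ) / ℓ x i ≤ A)
    (hB : ∑ x ∈ S, ∏ i, ((T (K + 1) (ℓ x i) : ℝ) / ℓ x i) ≤ B) :
    ∑ x ∈ S, ∏ i, ((T (J + 1) (ℓ x i) : ℝ) / ℓ x i) ≤ A ^ (1 - 1 / q) * B ^ (1 / q) := by
  have hq0 : 0 < q := by linarith
  have hpq : q.conjExponent.HolderConjugate q := (Real.HolderConjugate.conjExponent hq).symm
  obtain ⟨p, hp⟩ : ∃ p, p = q.conjExponent := ⟨_, rfl⟩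
  rw [← hp] at hpq
  have hp0 : 0 < p := hpq.pos
  have hp1 : 1 / p = 1 - 1 / q := by
    have := hpq.inv_add_inv_eq_one
    rw [one_div, one_div]
    linarith
  have h1 := Real.inner_le_Lp_mul_Lq_of_nonneg S hpq (f := fun g : ι => (∏ i, (1 : ℝ) / ℓ g i) ^ (1 / p))
    (g := fun g : ι => (∏ i, (T (J + 1) (ℓ g i) : ℝ)) * (∏ i, (1 : ℝ) / ℓ g i) ^ (1 / q)) (fun v _ => by positivity)
    (fun v _ => by positivity)
  have e1 : ∑ g ∈ S, (∏ i, (1 : ℝ) / ℓ g i) ^ (1 / p) * ((∏ i, (T (J + 1) (ℓ g i) : ℝ)) * (∏ i, (1 : ℝ) / ℓ g i) ^ (1 / q)) =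
      ∑ g ∈ S, ∏ i, ((T (J + 1) (ℓ g i) : ℝ) / ℓ g i) := by
    apply sum_congr rfl
    intro g hg
    have hv0 : 0 < ∏ i, (1 : ℝ) / ℓ g i := by
      apply prod_pos
      intro i _
      have : (0 : ℝ) < ℓ g i := by exact_mod_cast hS g hg i
      positivity
    have : (∏ i, (1 : ℝ) / ℓ g i) ^ (1 / p) * (∏ i, (1 : ℝ) / ℓ g i) ^ (1 / q) = ∏ i, (1 : ℝ) / ℓ g i := by
      rw [← Real.rpow_add hv0, hp1, sub_add_cancel, Real.rpow_one]
    calc (∏ i, (1 : ℝ) / ℓ g i) ^ (1 / p) * ((∏ i, (T (J + 1) (ℓ g i) : ℝ)) * (∏ i, (1 : ℝ) / ℓ g i) ^ (1 / q)) =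
          (∏ i, (T (J + 1) (ℓ g i) : ℝ)) * ((∏ i, (1 : ℝ) / ℓ g i) ^ (1 / p) * (∏ i, (1 : ℝ) / ℓ g i) ^ (1 / q)) := by ring
      _ = _ := by
        rw [this, ← prod_mul_distrib]
        apply prod_congr rfl
        intro i _
        rw [mul_one_div]
  have e2 : ∑ g ∈ S, ((∏ i, (1 : ℝ) / ℓ g i) ^ (1 / p)) ^ p = ∑ g ∈ S, ∏ i, (1 : ℝ) / ℓ g i := by
    apply sum_congr rfl
    intro v _
    rw [← Real.rpow_mul (by positivity), one_div_mul_cancel hp0.ne', Real.rpow_one]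
  have e3 : ∑ g ∈ S, ((∏ i, (T (J + 1) (ℓ g i) : ℝ)) * (∏ i, (1 : ℝ) / ℓ g i) ^ (1 / q)) ^ q ≤
      ∑ g ∈ S, ∏ i, ((T (K + 1) (ℓ g i) : ℝ) / ℓ g i) := by
    apply sum_le_sum
    intro g hg
    have hP0 : 0 ≤ ∏ i, (T (J + 1) (ℓ g i) : ℝ) := prod_nonneg (fun i _ => Nat.cast_nonneg _)
    have hR0 : 0 ≤ ∏ i, (1 : ℝ) / ℓ g i := prod_nonneg (fun i _ => by positivity)
    rw [Real.mul_rpow hP0 (by positivity), ← Real.rpow_mul hR0,
      one_div_mul_cancel hq0.ne', Real.rpow_one, ← Real.finsetProd_rpow _ _ (fun i _ => Nat.cast_nonneg _),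
      ← prod_mul_distrib]
    apply prod_le_prod
    · intro i _
      positivity
    · intro i _
      rw [mul_one_div]
      exact div_le_div_of_nonneg_right (T_rpow hq.le hJK (hS g hg i)) (Nat.cast_nonneg _)
  rw [e1, e2, hp1] at h1
  refine h1.trans ?_
  have hq1 : 0 ≤ 1 - 1 / q := by
    rw [← hp1]
    positivity
  have h2 : 0 ≤ ∑ g ∈ S, ∏ i, (1 : ℝ) / ℓ g i := sum_nonneg (fun v _ => prod_nonneg (fun i _ => by positivity))
  have h3 : 0 ≤ ∑ g ∈ S, ((∏ i, (T (J + 1) (ℓ g i) : ℝ)) * (∏ i, (1 : ℝ) / ℓ g i) ^ (1 / q)) ^ q :=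
    sum_nonneg (fun v _ => by positivity)
  exact mul_le_mul (Real.rpow_le_rpow h2 hA hq1) (Real.rpow_le_rpow h3 (e3.trans hB) (by positivity)) (by positivity)
    (Real.rpow_nonneg (h2.trans hA) _)

/-- the mean over all tuples of pairs -/
lemma all_pairsT {k : ℕ} (K : ℕ) {X : ℕ} (hX : 1 ≤ X) (F : Finset (Fin k → ℕ × ℕ))
    (hF : F ⊆ Fintype.piFinset (fun _ : Fin k => Box X)) :
    ∑ x ∈ F, ∏ i, ((T (K + 1) (Nat.lcm (x i).1 (x i).2) : ℝ) / (Nat.lcm (x i).1 (x i).2 : ℕ)) ≤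
      ((1 + Real.log (X * X : ℕ)) ^ ((K + 1) * 4)) ^ k := by
  calc ∑ x ∈ F, ∏ i, ((T (K + 1) (Nat.lcm (x i).1 (x i).2) : ℝ) / (Nat.lcm (x i).1 (x i).2 : ℕ))
      ≤ ∑ x ∈ Fintype.piFinset (fun _ : Fin k => Box X),
        ∏ i, ((T (K + 1) (Nat.lcm (x i).1 (x i).2) : ℝ) / (Nat.lcm (x i).1 (x i).2 : ℕ)) := by
        apply sum_le_sum_of_subset_of_nonneg hF
        intro v _ _
        exact prod_nonneg (fun i _ => by positivity)
    _ = ∏ _i : Fin k, ∑ x ∈ Box X, (T (K + 1) (Nat.lcm x.1 x.2) : ℝ) / (Nat.lcm x.1 x.2 : ℕ) :=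
        (prod_univ_sum (fun _ : Fin k => Box X)
          (fun _ x => (T (K + 1) (Nat.lcm x.1 x.2) : ℝ) / (Nat.lcm x.1 x.2 : ℕ))).symm
    _ ≤ ∏ _i : Fin k, (1 + Real.log (X * X : ℕ)) ^ ((K + 1) * 4) := by
        apply prod_le_prod
        · intro i _
          exact sum_nonneg (fun v _ => by positivity)
        · intro i _
          exact all_pairs K hX (Box X) (Subset.refl _)
    _ = _ := by rw [prod_const, card_univ, Fintype.card_fin]

/-- the tuples of pairs with linear combinations in a set of tuples -/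
lemma pairs_inT {k : ℕ} {X : ℕ} (hX : 1 ≤ X) {W : Finset (Fin k → ℕ)} (hW : ∀ w ∈ W, ∀ i, 1 ≤ w i)
    (Q : Finset (Fin k → ℕ × ℕ)) (hQ : Q ⊆ Fintype.piFinset (fun _ : Fin k => Box X)) {U : ℕ} {u v : Fin k → ℤ}
    (hu : ∀ i, |u i| ≤ U) (hv : ∀ i, |v i| ≤ U) (hlin : ∀ x ∈ Q, ∃ w ∈ W, ∀ i, (w i : ℤ) = u i * (x i).1 + v i * (x i).2) :
    ∑ x ∈ Q, ∏ i, (1 : ℝ) / (Nat.lcm (x i).1 (x i).2 : ℕ) ≤
      ∑ w ∈ W, ∏ i, (4 * U * (1 + Real.log X) * ((T 2 (w i) : ℝ) / w i)) := by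
  have hmap : ∀ x ∈ Q, (fun i => (u i * (x i).1 + v i * (x i).2).toNat) ∈ W := by
    intro x hx
    obtain ⟨w, hw, h⟩ := hlin x hx
    have : (fun i => (u i * (x i).1 + v i * (x i).2).toNat) = w := by
      funext i
      rw [← h i]
      simp
    rw [this]
    exact hw
  rw [← sum_fiberwise_of_maps_to hmap]
  apply sum_le_sum
  intro w hw
  calc ∑ x ∈ Q with (fun i => (u i * (x i).1 + v i * (x i).2).toNat) = w, ∏ i, (1 : ℝ) / (Nat.lcm (x i).1 (x i).2 : ℕ)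
      ≤ ∑ x ∈ Fintype.piFinset (fun i : Fin k => (Box X).filter (fun y => ((w i : ℕ) : ℤ) = u i * y.1 + v i * y.2)),
        ∏ i, (1 : ℝ) / (Nat.lcm (x i).1 (x i).2 : ℕ) := by
        apply sum_le_sum_of_subset_of_nonneg
        · intro x hx
          rw [mem_filter] at hx
          rw [Fintype.mem_piFinset]
          intro i
          rw [mem_filter]
          refine ⟨Fintype.mem_piFinset.1 (hQ hx.1) i, ?_⟩
          obtain ⟨w', hw', h⟩ := hlin x hx.1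
          have h2 : w i = w' i := by
            have h3 := congrFun hx.2 i
            rw [← h3]
            show (u i * (x i).1 + v i * (x i).2).toNat = w' i
            rw [← h i]
            simp
          rw [h2]
          exact h i
        · intro x _ _
          exact prod_nonneg (fun i _ => by positivity)
    _ = ∏ i : Fin k, ∑ y ∈ (Box X).filter (fun y => ((w i : ℕ) : ℤ) = u i * y.1 + v i * y.2),
        (1 : ℝ) / (Nat.lcm y.1 y.2 : ℕ) :=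
        (prod_univ_sum (fun i : Fin k => (Box X).filter (fun y => ((w i : ℕ) : ℤ) = u i * y.1 + v i * y.2))
          (fun _ y => (1 : ℝ) / (Nat.lcm y.1 y.2 : ℕ))).symm
    _ ≤ ∏ i : Fin k, (4 * U * (1 + Real.log X) * ((T 2 (w i) : ℝ) / w i)) := by
        apply prod_le_prod
        · intro i _
          exact sum_nonneg (fun v _ => by positivity)
        · intro i _
          exact fiber_w hX _ (filter_subset _ _) (hW w hw i) (hu i) (hv i) (fun x hx => (mem_filter.1 hx).2)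

/-- the sum over one scale -/
lemma scale_sum2 {k : ℕ} {c₀ ρ ε δ C₀ Cd M : ℝ} (hCd0 : 0 < Cd) (hM : 0 ≤ M) (hε : 0 ≤ ε) (hρ1 : ρ ≤ 1)
    (hδ : δ = c₀ - k * (1 - ρ) - k * ε) {W : Set (Fin k → ℕ)}
    (hCd : ∀ n : ℕ, 1 ≤ n → (n.divisors.card : ℝ) ≤ Cd * (n : ℝ) ^ ε) {Y : ℕ} (hY : 1 ≤ Y)
    (hW : ({w : Fin k → ℕ | (∀ i, 2 ≤ w i ∧ w i ≤ Y) ∧ w ∈ W}.ncard : ℝ) ≤ C₀ * (Y : ℝ) ^ ((k : ℝ) - c₀)) :
    ∑ w ∈ (Fintype.piFinset (fun _ : Fin k => Icc 2 Y)).filter (fun w => w ∈ W ∧ ∀ i, ((Y : ℝ) / 2) ^ ρ ≤ (w i : ℝ)),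
      ∏ i, (4 * M * ((T 2 (w i) : ℝ) / w i)) ≤ C₀ * (8 * Cd * M) ^ k * (Y : ℝ) ^ (-δ) := by
  have hY1 : (1 : ℝ) ≤ Y := by exact_mod_cast hY
  have hY0 : (0 : ℝ) < Y := by linarith
  have h1 : ∀ w ∈ (Fintype.piFinset (fun _ : Fin k => Icc 2 Y)).filter (fun w => w ∈ W ∧ ∀ i, ((Y : ℝ) / 2) ^ ρ ≤ (w i : ℝ)),
      ∏ i, (4 * M * ((T 2 (w i) : ℝ) / w i)) ≤ (8 * Cd * M) ^ k * (Y : ℝ) ^ (k * (ε - ρ)) := by
    intro w hw
    rw [mem_filter, Fintype.mem_piFinset] at hw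
    calc ∏ i, (4 * M * ((T 2 (w i) : ℝ) / w i)) ≤ ∏ _i : Fin k, ((8 * Cd * M) * (Y : ℝ) ^ (ε - ρ)) := by
          apply prod_le_prod
          · intro i _
            positivity
          · intro i _
            have h2 := hw.2.2 i
            have h3 : (0 : ℝ) < ((Y : ℝ) / 2) ^ ρ := by positivity
            have hwi := mem_Icc.1 (hw.1 i)
            have hw1 : 1 ≤ w i := by omega
            have h4 : (T 2 (w i) : ℝ) ≤ Cd * (Y : ℝ) ^ ε := by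
              rw [T_two hw1]
              refine (hCd (w i) hw1).trans (mul_le_mul_of_nonneg_left ?_ hCd0.le)
              exact Real.rpow_le_rpow (Nat.cast_nonneg _) (by exact_mod_cast hwi.2) hε
            have h5 : (1 : ℝ) / w i ≤ 2 * (Y : ℝ) ^ (-ρ) := by
              calc (1 : ℝ) / w i ≤ 1 / (((Y : ℝ) / 2) ^ ρ) := one_div_le_one_div_of_le h3 h2
                _ = 2 ^ ρ * (Y : ℝ) ^ (-ρ) := by
                  rw [Real.div_rpow hY0.le (by norm_num), Real.rpow_neg hY0.le]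
                  field_simp
                _ ≤ 2 * (Y : ℝ) ^ (-ρ) := by
                  apply mul_le_mul_of_nonneg_right _ (by positivity)
                  calc (2 : ℝ) ^ ρ ≤ 2 ^ (1 : ℝ) := Real.rpow_le_rpow_of_exponent_le (by norm_num) hρ1
                    _ = 2 := Real.rpow_one _
            calc 4 * M * ((T 2 (w i) : ℝ) / w i) = 4 * M * ((T 2 (w i) : ℝ) * (1 / w i)) := by ring
              _ ≤ 4 * M * ((Cd * (Y : ℝ) ^ ε) * (2 * (Y : ℝ) ^ (-ρ))) := by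
                  apply mul_le_mul_of_nonneg_left _ (by positivity)
                  exact mul_le_mul h4 h5 (by positivity) (by positivity)
              _ = (8 * Cd * M) * ((Y : ℝ) ^ ε * (Y : ℝ) ^ (-ρ)) := by ring
              _ = _ := by
                  rw [← Real.rpow_add hY0]
                  rfl
      _ = _ := by
          rw [prod_const, card_univ, Fintype.card_fin, mul_pow, ← Real.rpow_natCast ((Y : ℝ) ^ (ε - ρ)), ← Real.rpow_mul hY0.le]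
          congr 2
          ring
  refine (sum_le_sum h1).trans ?_
  rw [sum_const, nsmul_eq_mul]
  have h2 : (((Fintype.piFinset (fun _ : Fin k => Icc 2 Y)).filter
      (fun w => w ∈ W ∧ ∀ i, ((Y : ℝ) / 2) ^ ρ ≤ (w i : ℝ))).card : ℝ) ≤ C₀ * (Y : ℝ) ^ ((k : ℝ) - c₀) := by
    refine le_trans ?_ hW
    rw [← Set.ncard_coe_finset]
    apply Nat.cast_le.2
    apply Set.ncard_le_ncard
    · intro w hw
      rw [mem_coe, mem_filter, Fintype.mem_piFinset] at hw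
      exact ⟨fun i => mem_Icc.1 (hw.1 i), hw.2.1⟩
    · apply Set.Finite.subset (finite_toSet (Fintype.piFinset (fun _ : Fin k => Icc 2 Y)))
      intro w hw
      rw [mem_coe, Fintype.mem_piFinset]
      exact fun i => mem_Icc.2 (hw.1 i)
  calc (((Fintype.piFinset (fun _ : Fin k => Icc 2 Y)).filter
        (fun w => w ∈ W ∧ ∀ i, ((Y : ℝ) / 2) ^ ρ ≤ (w i : ℝ))).card : ℝ) * ((8 * Cd * M) ^ k * (Y : ℝ) ^ (k * (ε - ρ)))
      ≤ (C₀ * (Y : ℝ) ^ ((k : ℝ) - c₀)) * ((8 * Cd * M) ^ k * (Y : ℝ) ^ (k * (ε - ρ))) :=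
        mul_le_mul_of_nonneg_right h2 (by positivity)
    _ = C₀ * (8 * Cd * M) ^ k * ((Y : ℝ) ^ ((k : ℝ) - c₀) * (Y : ℝ) ^ (k * (ε - ρ))) := by ring
    _ = C₀ * (8 * Cd * M) ^ k * (Y : ℝ) ^ (-δ) := by
        rw [← Real.rpow_add hY0]
        congr 2
        rw [hδ]
        ring

/-- the whole estimate, numbers -/
lemma num3 {k K U : ℕ} {L l S Lb Laq Lc R κ₂ δ γ q C₁ Y lX lXX : ℝ} (hL : 100 ≤ L) (hexpl : Real.exp l = L) (hl : 1 ≤ l)
    (hLcS : Lc ≤ S) (hC₁ : 0 ≤ C₁) (hδ : 0 < δ) (hq : 1 < q) (hγ : γ = δ * (1 - 1 / q))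
    (hY : 0 < Y) (hYb : Real.exp Lb ≤ Y) (hlX0 : 0 ≤ lX) (hlX : 1 + lX ≤ L * L) (hlXX0 : 0 ≤ lXX) (hlXX : 1 + lXX ≤ L * L)
    (hR : 0 ≤ R) (hRL : R + 2 ≤ L) (hC₁L : C₁ + 1 ≤ L) (hK : (K : ℝ) + 1 ≤ κ₂ * Laq)
    (hK2 : 8 * k * κ₂ * (Laq * l) ≤ S) (hlS : 10 * l ≤ S) (hkS : (7 * k + 5) * S ≤ γ * Lb) (hU : (U : ℝ) ≤ Real.exp S) :
    (R * L + 1) * ((2 * (U : ℝ) + 1) ^ (2 * k) * (Real.exp S ^ k * ((C₁ * (U * (1 + lX)) ^ k * Y ^ (-δ)) ^ (1 - 1 / q) *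
      (((1 + lXX) ^ ((K + 1) * 4)) ^ k) ^ (1 / q)))) ≤ Real.exp (-Lc) / 2 := by
  have hL0 : 0 < L := by linarith
  have hq0 : 0 < q := by linarith
  have hqi : 0 < 1 / q := by positivity
  have hqi1 : 1 / q < 1 := by rw [div_lt_one hq0]; exact hq
  have hk0 : (0 : ℝ) ≤ k := Nat.cast_nonneg _
  have hU0 : (0 : ℝ) ≤ U := Nat.cast_nonneg _
  have hLL : L * L = Real.exp (2 * l) := by
    rw [show 2 * l = l + l by ring, Real.exp_add, hexpl]
  have hS1 : 10 ≤ S := by linarith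
  have g1 : R * L + 1 ≤ Real.exp S := by
    refine le_trans ?_ (Real.exp_le_exp.2 (show 2 * l ≤ S by linarith))
    rw [← hLL]
    nlinarith
  rw [hLL] at hlX hlXX
  have g2 : (2 * (U : ℝ) + 1) ^ (2 * k) ≤ Real.exp (4 * k * S) := by
    have h1 : 2 * (U : ℝ) + 1 ≤ Real.exp (2 * S) := by
      have h2 : (3 : ℝ) ≤ Real.exp S := by
        have := Real.add_one_le_exp S
        linarith
      calc 2 * (U : ℝ) + 1 ≤ 3 * Real.exp S := by linarith
        _ ≤ Real.exp S * Real.exp S := mul_le_mul_of_nonneg_right h2 (Real.exp_pos _).le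
        _ = Real.exp (2 * S) := by rw [← Real.exp_add]; congr 1; ring
    calc (2 * (U : ℝ) + 1) ^ (2 * k) ≤ (Real.exp (2 * S)) ^ (2 * k) := pow_le_pow_left₀ (by positivity) h1 _
      _ = Real.exp (4 * k * S) := by rw [← Real.exp_nat_mul]; congr 1; push_cast; ring
  have g3 : Real.exp S ^ k = Real.exp (k * S) := by rw [← Real.exp_nat_mul]
  have g4 : (C₁ * (U * (1 + lX)) ^ k * Y ^ (-δ)) ^ (1 - 1 / q) ≤ Real.exp ((2 * k + 1) * S) * Real.exp (-(γ * Lb)) := by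
    have e1 : Y ^ (-δ) ≤ Real.exp (-(δ * Lb)) := by
      calc Y ^ (-δ) ≤ (Real.exp Lb) ^ (-δ) :=
            Real.rpow_le_rpow_of_nonpos (Real.exp_pos _) hYb (by linarith)
        _ = Real.exp (-(δ * Lb)) := by
            rw [← Real.exp_mul]
            congr 1
            ring
    have e2 : C₁ ≤ Real.exp l := by rw [hexpl]; linarith
    have e3 : ((U : ℝ) * (1 + lX)) ^ k ≤ Real.exp (k * (S + 2 * l)) := by
      calc ((U : ℝ) * (1 + lX)) ^ k ≤ (Real.exp S * Real.exp (2 * l)) ^ k := by gcongr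
        _ = Real.exp (k * (S + 2 * l)) := by rw [← Real.exp_add, ← Real.exp_nat_mul]
    have e4 : C₁ * (U * (1 + lX)) ^ k * Y ^ (-δ) ≤ Real.exp l * Real.exp (k * (S + 2 * l)) * Real.exp (-(δ * Lb)) := by
      apply mul_le_mul _ e1 (by positivity) (by positivity)
      exact mul_le_mul e2 e3 (by positivity) (Real.exp_pos _).le
    calc (C₁ * (U * (1 + lX)) ^ k * Y ^ (-δ)) ^ (1 - 1 / q)
        ≤ (Real.exp l * Real.exp (k * (S + 2 * l)) * Real.exp (-(δ * Lb))) ^ (1 - 1 / q) :=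
          Real.rpow_le_rpow (by positivity) e4 (by linarith)
      _ = Real.exp ((l + k * (S + 2 * l)) * (1 - 1 / q)) * Real.exp (-(γ * Lb)) := by
          rw [← Real.exp_add, ← Real.exp_add, ← Real.exp_mul, ← Real.exp_add, hγ]
          congr 1
          ring
      _ ≤ _ := by
          apply mul_le_mul_of_nonneg_right _ (Real.exp_pos _).le
          apply Real.exp_le_exp.2
          have h1 : 0 ≤ l + k * (S + 2 * l) := by positivity
          have h2 : (l + k * (S + 2 * l)) * (1 - 1 / q) ≤ (l + k * (S + 2 * l)) * 1 :=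
            mul_le_mul_of_nonneg_left (by linarith) h1
          have h3 : (k : ℝ) * (S + 2 * l) ≤ k * (2 * S) := mul_le_mul_of_nonneg_left (by linarith) hk0
          linarith
  have g5 : (((1 + lXX) ^ ((K + 1) * 4)) ^ k) ^ (1 / q) ≤ Real.exp S := by
    have e0 : (1 : ℝ) ≤ ((1 + lXX) ^ ((K + 1) * 4)) ^ k := one_le_pow₀ (one_le_pow₀ (by linarith))
    calc (((1 + lXX) ^ ((K + 1) * 4)) ^ k) ^ (1 / q) ≤ (((1 + lXX) ^ ((K + 1) * 4)) ^ k) ^ (1 : ℝ) :=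
          Real.rpow_le_rpow_of_exponent_le e0 hqi1.le
      _ = ((1 + lXX) ^ ((K + 1) * 4)) ^ k := Real.rpow_one _
      _ ≤ ((Real.exp (2 * l)) ^ ((K + 1) * 4)) ^ k := by gcongr
      _ = Real.exp ((k : ℝ) * (((K : ℝ) + 1) * (8 * l))) := by
          rw [← Real.exp_nat_mul, ← Real.exp_nat_mul]
          congr 1
          push_cast
          ring
      _ ≤ Real.exp S := by
          apply Real.exp_le_exp.2
          refine le_trans ?_ hK2
          have e4 : ((K : ℝ) + 1) * (8 * l) ≤ (κ₂ * Laq) * (8 * l) := mul_le_mul_of_nonneg_right hK (by linarith)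
          calc (k : ℝ) * (((K : ℝ) + 1) * (8 * l)) ≤ k * ((κ₂ * Laq) * (8 * l)) := mul_le_mul_of_nonneg_left e4 hk0
            _ = 8 * k * κ₂ * (Laq * l) := by ring
  have hA0 : 0 ≤ (C₁ * (U * (1 + lX)) ^ k * Y ^ (-δ)) ^ (1 - 1 / q) := by positivity
  have hD0 : 0 ≤ (((1 + lXX) ^ ((K + 1) * 4)) ^ k) ^ (1 / q) := by positivity
  calc (R * L + 1) * ((2 * (U : ℝ) + 1) ^ (2 * k) * (Real.exp S ^ k * ((C₁ * (U * (1 + lX)) ^ k * Y ^ (-δ)) ^ (1 - 1 / q) *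
        (((1 + lXX) ^ ((K + 1) * 4)) ^ k) ^ (1 / q))))
      ≤ Real.exp S * (Real.exp (4 * k * S) * (Real.exp (k * S) *
        ((Real.exp ((2 * k + 1) * S) * Real.exp (-(γ * Lb))) * Real.exp S))) := by
        rw [g3]
        apply mul_le_mul g1 _ (by positivity) (Real.exp_pos _).le
        apply mul_le_mul g2 _ (by positivity) (Real.exp_pos _).le
        apply mul_le_mul_of_nonneg_left _ (Real.exp_pos _).le
        exact mul_le_mul g4 g5 hD0 (by positivity)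
    _ = Real.exp ((7 * k + 3) * S - γ * Lb) := by
        simp only [← Real.exp_add]
        congr 1
        ring
    _ ≤ Real.exp (-Lc) / 2 := by
        have e1 : (2 : ℝ) ≤ Real.exp 1 := by
          have := Real.add_one_le_exp (1 : ℝ)
          linarith
        rw [le_div_iff₀ (by norm_num)]
        calc Real.exp ((7 * k + 3) * S - γ * Lb) * 2 ≤ Real.exp ((7 * k + 3) * S - γ * Lb) * Real.exp 1 :=
              mul_le_mul_of_nonneg_left e1 (Real.exp_pos _).le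
          _ = Real.exp ((7 * k + 3) * S - γ * Lb + 1) := by rw [← Real.exp_add]
          _ ≤ _ := by
              apply Real.exp_le_exp.2
              linarith

/-- **Tuples.** If `W` has at most `C₀ X^(k - c₀)` elements in `[2, X]^k`, then for all `m` in `[1, N]^k` but
`N^k exp (-(log N)^c)` no tuple `w` with `CombT` is in `W`; `θ < b`, `1/2 < b < 1`, `c < 2 b - 1`, `k (1 - ρ) < c₀`. -/
theorem avoidT2 {k : ℕ} (hk : 1 ≤ k) {F : Fin k → ℕ → ℕ} (hF : ∀ i, LM (F i)) {c₀ ρ : ℝ} (hρ0 : 0 < ρ) (hρ1 : ρ ≤ 1)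
    (hρ : k * (1 - ρ) < c₀) (C₀ : ℝ) {θ b c : ℝ} (hθ : θ < b) (hb : b < 1) (hc0 : 0 ≤ c) (hcb : c < 2 * b - 1) :
    ∃ N₀ : ℕ, ∀ N : ℕ, N₀ ≤ N → ∀ W : Set (Fin k → ℕ),
      (∀ X : ℕ, 1 ≤ X → ({w : Fin k → ℕ | (∀ i, 2 ≤ w i ∧ w i ≤ X) ∧ w ∈ W}.ncard : ℝ) ≤ C₀ * (X : ℝ) ^ ((k : ℝ) - c₀)) →
      ({m : Fin k → ℕ | (∀ i, 1 ≤ m i ∧ m i ≤ N) ∧ ∃ w ∈ W, CombT F b θ ρ N m w}.ncard : ℝ) ≤
        (N : ℝ) ^ k * Real.exp (-(Real.log N ^ c)) := by
  have hk0 : (0 : ℝ) < k := by exact_mod_cast hk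
  -- the exponents
  obtain ⟨c₁, a, s, q, aq, haq, hc₁0, hcc₁, h_as, h_aqs, h_sb, h_c, h_a1, h_cs, ha0, hq1, haq0, hθs⟩ :
      ∃ c₁ a s q aq : ℝ, aq = a * q ∧ 0 ≤ c₁ ∧ c < c₁ ∧ a < s ∧ aq < s ∧ s < b ∧ c₁ < 2 * a - 1 ∧ a < 1 ∧ c < s ∧ 0 < a ∧
        1 < q ∧ 0 ≤ aq ∧ θ < s := by
    obtain ⟨c₁, hc₁⟩ : ∃ c₁ : ℝ, c₁ = ((2 * b - 1) + c) / 2 := ⟨_, rfl⟩
    have hc1 : c < c₁ := by rw [hc₁]; linarith
    have hc2 : c₁ < 2 * b - 1 := by rw [hc₁]; linarith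
    obtain ⟨a, ha⟩ : ∃ a : ℝ, a = ((1 + c₁) / 2 + b) / 2 := ⟨_, rfl⟩
    have ha1 : (1 + c₁) / 2 < a := by rw [ha]; linarith
    have hab : a < b := by rw [ha]; linarith
    have ha0 : 0 < a := by linarith
    obtain ⟨q, hq⟩ : ∃ q : ℝ, q = (1 + b / a) / 2 := ⟨_, rfl⟩
    have hba : 1 < b / a := by rw [lt_div_iff₀ ha0]; linarith
    have hq1 : 1 < q := by rw [hq]; linarith
    have hq0 : 0 < q := by linarith
    have haq' : a * q = (a + b) / 2 := by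
      rw [hq]
      field_simp
    obtain ⟨s, hs⟩ : ∃ s : ℝ, s = max ((a * q + b) / 2) ((θ + b) / 2) := ⟨_, rfl⟩
    have hs2 : (a * q + b) / 2 ≤ s := by rw [hs]; exact le_max_left _ _
    have hs3 : (θ + b) / 2 ≤ s := by rw [hs]; exact le_max_right _ _
    have hsb : s < b := by
      rw [hs]
      apply max_lt <;> linarith
    refine ⟨c₁, a, s, q, a * q, rfl, ?_, ?_, ?_, ?_, ?_, ?_, ?_, ?_, ha0, hq1, by positivity, ?_⟩
    all_goals linarith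
  have hq0 : 0 < q := lt_trans one_pos hq1
  obtain ⟨ε, hεd⟩ : ∃ ε : ℝ, ε = (c₀ - k * (1 - ρ)) / (2 * k) := ⟨_, rfl⟩
  have hε : 0 < ε := by
    rw [hεd]
    exact div_pos (by linarith) (by linarith)
  obtain ⟨δ, hδd⟩ : ∃ δ : ℝ, δ = c₀ - k * (1 - ρ) - k * ε := ⟨_, rfl⟩
  have hδ : 0 < δ := by
    have : k * ε = (c₀ - k * (1 - ρ)) / 2 := by
      rw [hεd]
      field_simp
    rw [hδd, this]
    linarith
  obtain ⟨γ, hγd⟩ : ∃ γ : ℝ, γ = δ * (1 - 1 / q) := ⟨_, rfl⟩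
  have hγ : 0 < γ := by
    have : 1 / q < 1 := by rw [div_lt_one hq0]; exact hq1
    rw [hγd]
    exact mul_pos hδ (by linarith)
  obtain ⟨Cd, hCd0, hCd⟩ := Pool.Agent.H510R2.divisor_bound ε hε
  obtain ⟨C₁, hC₁⟩ : ∃ C₁ : ℝ, C₁ = |C₀| * (8 * Cd) ^ k := ⟨_, rfl⟩
  have hC₁0 : 0 ≤ C₁ := by rw [hC₁]; positivity
  choose N₀ hN₀ using fun i => pw (hF i) h_as h_a1 hc₁0 h_c
  obtain ⟨i₀, -⟩ : ∃ i₀ : Fin k, (i₀ : ℕ) = 0 := ⟨⟨0, hk⟩, rfl⟩
  -- a common growth bound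
  choose Cg Dg hCD' using fun i => (hF i).growth
  obtain ⟨C, hC⟩ : ∃ C : ℕ, C = ∑ i, Cg i := ⟨_, rfl⟩
  obtain ⟨D, hD⟩ : ∃ D : ℕ, D = ∑ i, Dg i := ⟨_, rfl⟩
  have hCD : ∀ i, ∀ m : ℕ, 1 ≤ m → F i m ≤ (C + 1) * m ^ D := by
    intro i m hm
    have h1 : Cg i ≤ C + 1 := by
      rw [hC]
      exact (single_le_sum (f := Cg) (fun _ _ => Nat.zero_le _) (mem_univ i)).trans (Nat.le_succ _)
    have h2 : Dg i ≤ D := by
      rw [hD]
      exact single_le_sum (f := Dg) (fun _ _ => Nat.zero_le _) (mem_univ i)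
    exact (hCD' i m hm).trans (Nat.mul_le_mul h1 (Nat.pow_le_pow_right hm h2))
  obtain ⟨R₁, hR₁⟩ : ∃ R₁ : ℝ, R₁ = 2 * (((C + 1 : ℕ) : ℝ) + D) + 6 := ⟨_, rfl⟩
  have hR₁0 : 0 ≤ R₁ := by rw [hR₁]; positivity
  obtain ⟨R, r0, r1, r2, r3, r4, r5⟩ : ∃ R : ℝ, 100 ≤ R ∧ R₁ + 2 ≤ R ∧ C₁ + 1 ≤ R ∧ 8 * k * ((2 : ℝ) ^ q + 2) ≤ R ∧
      (7 * k + 5) / γ ≤ R ∧ 2 * (k : ℝ) + 1 ≤ R := by
    have p3 : (0 : ℝ) < 8 * k * (2 ^ q + 2) := by positivity
    have p4 : (0 : ℝ) < (7 * k + 5) / γ := by positivity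
    refine ⟨100 + R₁ + 2 + C₁ + 8 * k * (2 ^ q + 2) + (7 * k + 5) / γ + (2 * k + 1), ?_, ?_, ?_, ?_, ?_, ?_⟩ <;> linarith
  have t1 : Filter.Tendsto (fun N : ℕ => Real.log (N : ℝ)) Filter.atTop Filter.atTop :=
    Real.tendsto_log_atTop.comp tendsto_natCast_atTop_atTop
  have g := (Filter.eventually_ge_atTop R).and ((Real.tendsto_log_atTop.eventually_ge_atTop 1).and
    ((ev h_sb R).and ((ev h_aqs R).and ((ev hcc₁ R).and (ev h_cs R)))))
  obtain ⟨N₁, hN₁⟩ := Filter.eventually_atTop.1 ((t1.eventually g).and (Filter.eventually_ge_atTop 3))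
  refine ⟨max N₁ (Finset.univ.sup N₀), fun N hN W hW => ?_⟩
  obtain ⟨⟨k0, k1, k2, k3, k4, k5⟩, hN3⟩ := hN₁ N ((le_max_left _ _).trans hN)
  clear hN₁ g t1
  have hNi : ∀ i, N₀ i ≤ N := fun i => (Finset.le_sup (mem_univ i)).trans ((le_max_right _ _).trans hN)
  choose E hE1 hE2 using fun i => hN₀ i N (hNi i)
  have hN1 : 1 ≤ N := le_trans (by norm_num) hN3
  have hN0 : (0 : ℝ) < N := by exact_mod_cast hN1
  obtain ⟨L, hL⟩ : ∃ L, L = Real.log N := ⟨_, rfl⟩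
  rw [← hL] at k0 k1 k2 k3 k4 k5 ⊢
  simp only [← hL] at hE1 hE2
  obtain ⟨l, hl⟩ : ∃ l, l = Real.log L := ⟨_, rfl⟩
  rw [← hl] at k1 k2 k3 k4 k5
  have hR0 : 0 ≤ R := le_trans (by norm_num) r0
  have hL100 : 100 ≤ L := r0.trans k0
  have hL0 : 0 < L := lt_of_lt_of_le (by norm_num) hL100
  have hL1 : 1 ≤ L := le_trans (by norm_num) hL100
  have hl0 : 0 ≤ l := zero_le_one.trans k1
  have hexpl : Real.exp l = L := by rw [hl]; exact Real.exp_log hL0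
  have hexpL : Real.exp L = N := by rw [hL]; exact Real.exp_log hN0
  obtain ⟨S, hS⟩ : ∃ S : ℝ, S = L ^ s := ⟨_, rfl⟩
  rw [← hS] at k2 k3 k5
  simp only [← hS] at hE2
  have hS1 : 1 ≤ S := by rw [hS]; exact Real.one_le_rpow hL1 (ha0.le.trans h_as.le)
  have hS0 : 0 ≤ S := zero_le_one.trans hS1
  have hSL : S ≤ L := by
    rw [hS]
    calc L ^ s ≤ L ^ (1 : ℝ) := Real.rpow_le_rpow_of_exponent_le hL1 (by linarith only [h_sb, hb])
      _ = L := Real.rpow_one _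
  have hθS : L ^ θ ≤ S := by
    rw [hS]
    exact Real.rpow_le_rpow_of_exponent_le hL1 hθs.le
  have hLc1 : 1 ≤ L ^ c := Real.one_le_rpow hL1 hc0
  have hLc0 : 0 ≤ L ^ c := zero_le_one.trans hLc1
  have hLaq1 : 1 ≤ L ^ aq := Real.one_le_rpow hL1 haq0
  have u2 : R * S ≤ L ^ b := mul_l hR0 hS0 k1 k2
  have u3 : R * l ≤ S := mul_l' hR0 hLaq1 hl0 k3
  have u4 : R * L ^ c ≤ L ^ c₁ := mul_l hR0 hLc0 k1 k4
  have u5 : R * L ^ c ≤ S := mul_l hR0 hLc0 k1 k5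
  have hLcS : L ^ c ≤ S := le_trans (le_of_eq (one_mul _).symm) (mul_R hLc0 (by linarith only [r0]) u5)
  obtain ⟨A, hA⟩ : ∃ A : ℝ, A = L ^ a := ⟨_, rfl⟩
  simp only [← hA] at hE2
  have hA1 : 1 ≤ A := by rw [hA]; exact Real.one_le_rpow hL1 ha0.le
  obtain ⟨J, hJ⟩ : ∃ J : ℕ, J = ⌊A⌋₊ := ⟨_, rfl⟩
  have hJA : (J : ℝ) ≤ A := by rw [hJ]; exact Nat.floor_le (by linarith only [hA1])
  simp only [← hJ] at hE2
  obtain ⟨K, hK1, hK2⟩ := num_K hL1 hq0 haq haq0 hA hA1 hJA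
  obtain ⟨Λ, hΛ⟩ : ∃ Λ : ℝ, Λ = Real.exp S := ⟨_, rfl⟩
  rw [← hΛ] at hE2
  have hΛ0 : 0 < Λ := by rw [hΛ]; exact Real.exp_pos _
  have h8 : (7 * k + 5) * S ≤ γ * L ^ b := by
    have e6 : (7 * k + 5) / γ * S ≤ L ^ b := mul_R hS0 r4 u2
    rw [div_mul_eq_mul_div, div_le_iff₀ hγ] at e6
    linarith only [e6]
  -- the sizes
  obtain ⟨U, hU⟩ : ∃ U : ℕ, U = ⌊Real.exp S⌋₊ := ⟨_, rfl⟩
  have hU1 : (U : ℝ) ≤ Real.exp S := by rw [hU]; exact Nat.floor_le (Real.exp_pos _).le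
  have hUone : 1 ≤ U := by
    rw [hU]
    apply Nat.le_floor
    have := Real.add_one_le_exp S
    push_cast
    linarith only [this, hS1]
  obtain ⟨X, hX⟩ : ∃ X : ℕ, X = (C + 1) * N ^ D := ⟨_, rfl⟩
  have hX1 : 1 ≤ X := by
    rw [hX]
    exact Nat.mul_pos (Nat.succ_pos _) (pow_pos hN1 _)
  have hX1r : (1 : ℝ) ≤ X := by exact_mod_cast hX1
  have hfX : ∀ i, ∀ m : ℕ, 1 ≤ m → m ≤ N → F i m ≤ X := by
    intro i m h1 h2
    rw [hX]
    exact (hCD i m h1).trans (Nat.mul_le_mul le_rfl (Nat.pow_le_pow_left h2 D))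
  have hlX0 : 0 ≤ Real.log X := Real.log_nonneg hX1r
  have hlX : Real.log X ≤ ((C + 1 : ℕ) : ℝ) * L + D * L := by
    rw [hX]
    push_cast
    rw [Real.log_mul (by positivity) (by positivity), Real.log_pow, ← hL]
    have h1 : Real.log ((C : ℝ) + 1) ≤ (C : ℝ) + 1 := log_le_self' (by positivity)
    have h2 : ((C : ℝ) + 1) * 1 ≤ ((C : ℝ) + 1) * L := mul_le_mul_of_nonneg_left hL1 (by positivity)
    linarith only [h1, h2]
  have hRL : R₁ * L ≤ L * L := by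
    apply mul_le_mul_of_nonneg_right _ hL0.le
    linarith only [r1, k0]
  have hR₁L : R₁ * L = 2 * (((C + 1 : ℕ) : ℝ) * L + D * L) + 6 * L := by rw [hR₁]; ring
  have hLb1 : 1 ≤ L ^ b := by
    apply Real.one_le_rpow hL1
    linarith only [ha0, h_as, h_sb]
  -- the sets
  obtain ⟨Wj, hWj⟩ : ∃ Wj : ℕ → Finset (Fin k → ℕ), Wj = fun (j : ℕ) => (Fintype.piFinset (fun _ : Fin k =>
    Icc 2 (2 ^ j))).filter (fun w => w ∈ W ∧ ∀ i, (((2 ^ j : ℕ) : ℝ) / 2) ^ ρ ≤ (w i : ℝ)) := ⟨_, rfl⟩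
  obtain ⟨JJ, hJJ⟩ : ∃ JJ : Finset ℕ, JJ = (range (⌊R₁ * L⌋₊ + 1)).filter (fun j => Real.exp (L ^ b) ≤ ((2 ^ j : ℕ) : ℝ)) :=
    ⟨_, rfl⟩
  obtain ⟨Box', hBox⟩ : ∃ Box' : Finset (Fin k → ℕ), Box' = Fintype.piFinset (fun _ : Fin k => Icc 1 N) := ⟨_, rfl⟩
  obtain ⟨UU, hUU⟩ : ∃ UU : Finset (Fin k → ℤ), UU = Fintype.piFinset (fun _ : Fin k => Icc (-(U : ℤ)) U) := ⟨_, rfl⟩
  obtain ⟨Q, hQ⟩ : ∃ Q : ℕ → (Fin k → ℤ) → (Fin k → ℤ) → Finset (Fin k → ℕ × ℕ), Q = fun j u v =>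
    (Fintype.piFinset (fun _ : Fin k => Box X)).filter
      (fun x => ∃ w ∈ Wj j, ∀ i, ((w i : ℕ) : ℤ) = u i * (x i).1 + v i * (x i).2) := ⟨_, rfl⟩
  have hcov : Box'.filter (fun m => ∃ w ∈ W, CombT F b θ ρ N m w) ⊆ Box'.filter (fun m => ∃ i, m i ∈ E i) ∪
      JJ.biUnion (fun j => (UU ×ˢ UU).biUnion (fun p => (Q j p.1 p.2).biUnion (fun x =>
        Fintype.piFinset (fun i => (Icc 1 N).filter (fun m => m ∉ E i ∧ Nat.lcm (x i).1 (x i).2 ∣ F i m))))) := by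
    intro m hm
    rw [mem_filter] at hm
    obtain ⟨hmB, w, hwW, hw⟩ := hm
    rw [mem_union]
    by_cases hmE : ∃ i, m i ∈ E i
    · left
      rw [mem_filter]
      exact ⟨hmB, hmE⟩
    right
    push Not at hmE
    have hmB' := hmB
    rw [hBox, Fintype.mem_piFinset] at hmB'
    have hm1 : ∀ i, 1 ≤ m i ∧ m i ≤ N := fun i => mem_Icc.1 (hmB' i)
    have hcomb := fun i => (hw i).1
    choose hwb d e u v hd he hu hv hlin using hcomb
    rw [← hL] at hwb hu hv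
    have habs : ∀ x : ℤ, |(x : ℝ)| ≤ Real.exp (L ^ θ) → |x| ≤ (U : ℤ) := by
      intro x hx
      have h1 : ((x.natAbs : ℕ) : ℝ) ≤ Real.exp S := by
        rw [Nat.cast_natAbs, Int.cast_abs]
        exact hx.trans (Real.exp_le_exp.2 hθS)
      have h2 : x.natAbs ≤ U := by
        rw [hU]
        exact Nat.le_floor h1
      rw [Int.abs_eq_natAbs]
      exact_mod_cast h2
    have hu' := fun i => habs (u i) (hu i)
    have hv' := fun i => habs (v i) (hv i)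
    have hfm := fun i => (hF i).pos (m i) (hm1 i).1
    have hd1 : ∀ i, 1 ≤ d i := fun i => Nat.pos_of_dvd_of_pos (hd i) (hfm i)
    have he1 : ∀ i, 1 ≤ e i := fun i => Nat.pos_of_dvd_of_pos (he i) (hfm i)
    have hdX : ∀ i, d i ≤ X := fun i => (Nat.le_of_dvd (hfm i) (hd i)).trans (hfX i (m i) (hm1 i).1 (hm1 i).2)
    have heX : ∀ i, e i ≤ X := fun i => (Nat.le_of_dvd (hfm i) (he i)).trans (hfX i (m i) (hm1 i).1 (hm1 i).2)
    obtain ⟨mx, hmx⟩ : ∃ mx : ℕ, mx = Finset.univ.sup w := ⟨_, rfl⟩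
    have hwmx : ∀ i, w i ≤ mx := fun i => by rw [hmx]; exact Finset.le_sup (mem_univ i)
    obtain ⟨i₁, hi₁⟩ : ∃ i₁, mx = w i₁ := by
      have hne : (univ : Finset (Fin k)).Nonempty := ⟨i₀, mem_univ _⟩
      obtain ⟨i₁, -, h1⟩ := Finset.exists_mem_eq_sup univ hne w
      exact ⟨i₁, by rw [hmx]; exact h1⟩
    have hmxb : Real.exp (L ^ b) ≤ (mx : ℝ) := by
      rw [hi₁]
      exact hwb i₁
    have hw2 : ∀ i, 2 ≤ w i := by
      intro i
      have h1 := hwb i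
      have h2 : (2 : ℝ) ≤ Real.exp (L ^ b) := by
        have := Real.add_one_le_exp (L ^ b)
        linarith only [this, hLb1]
      exact_mod_cast h2.trans h1
    have hmx1 : 1 ≤ mx := by
      have := hw2 i₁
      omega
    have hmx1r : (1 : ℝ) ≤ mx := by exact_mod_cast hmx1
    obtain ⟨j, hj⟩ : ∃ j : ℕ, j = Nat.log 2 mx + 1 := ⟨_, rfl⟩
    have hj1 : mx < 2 ^ j := by
      rw [hj]
      exact Nat.lt_pow_succ_log_self (by norm_num) mx
    have hj2 : 2 ^ j ≤ 2 * mx := by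
      rw [hj, pow_succ, mul_comm]
      exact Nat.mul_le_mul_left _ (Nat.pow_log_le_self 2 (by omega))
    have hj1r : (mx : ℝ) ≤ ((2 ^ j : ℕ) : ℝ) := by exact_mod_cast hj1.le
    have hj2r : ((2 ^ j : ℕ) : ℝ) / 2 ≤ mx := by
      rw [div_le_iff₀ (by norm_num)]
      have : 2 ^ j ≤ mx * 2 := by omega
      exact_mod_cast this
    rw [mem_biUnion]
    refine ⟨j, ?_, ?_⟩
    · rw [hJJ, mem_filter, mem_range]
      refine ⟨?_, hmxb.trans hj1r⟩
      rw [Nat.lt_succ_iff]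
      apply Nat.le_floor
      -- the size of `mx`
      have h1 : mx ≤ 2 * U * X := by
        have h0 : (mx : ℤ) ≤ (2 * U * X : ℕ) := by
          rw [hi₁, hlin i₁]
          have h2 : u i₁ * d i₁ ≤ (U : ℤ) * X := by
            calc u i₁ * d i₁ ≤ (U : ℤ) * d i₁ :=
                  mul_le_mul_of_nonneg_right ((le_abs_self (u i₁)).trans (hu' i₁)) (Int.natCast_nonneg _)
              _ ≤ (U : ℤ) * X := mul_le_mul_of_nonneg_left (by exact_mod_cast hdX i₁) (Int.natCast_nonneg _)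
          have h3 : v i₁ * e i₁ ≤ (U : ℤ) * X := by
            calc v i₁ * e i₁ ≤ (U : ℤ) * e i₁ :=
                  mul_le_mul_of_nonneg_right ((le_abs_self (v i₁)).trans (hv' i₁)) (Int.natCast_nonneg _)
              _ ≤ (U : ℤ) * X := mul_le_mul_of_nonneg_left (by exact_mod_cast heX i₁) (Int.natCast_nonneg _)
          push_cast
          linarith only [h2, h3]
        exact_mod_cast h0
      have hU0 : (0 : ℝ) < U := by exact_mod_cast hUone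
      have h2 : Real.log mx ≤ 1 + S + Real.log X := by
        have h3 : Real.log mx ≤ Real.log ((2 * U * X : ℕ) : ℝ) :=
          Real.log_le_log (by linarith only [hmx1r]) (by exact_mod_cast h1)
        push_cast at h3
        rw [Real.log_mul (by positivity) (by positivity), Real.log_mul (by norm_num) (by positivity)] at h3
        have h4 : Real.log 2 ≤ 1 := by
          have := Real.log_two_lt_d9
          linarith only [this]
        have h5 : Real.log U ≤ S := by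
          rw [← Real.log_exp S]
          exact Real.log_le_log hU0 hU1
        linarith only [h3, h4, h5]
      have h3 : (Nat.log 2 mx : ℝ) ≤ 2 * Real.log mx := by
        have h4 : (2 : ℝ) ^ (Nat.log 2 mx) ≤ mx := by exact_mod_cast Nat.pow_log_le_self 2 (by omega)
        have h5 := Real.log_le_log (by positivity) h4
        rw [Real.log_pow] at h5
        have h6 : (1 : ℝ) / 2 ≤ Real.log 2 := by
          have := Real.log_two_gt_d9
          linarith only [this]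
        have h7 : (Nat.log 2 mx : ℝ) * (1 / 2) ≤ (Nat.log 2 mx : ℝ) * Real.log 2 :=
          mul_le_mul_of_nonneg_left h6 (Nat.cast_nonneg _)
        linarith only [h5, h7]
      rw [hj, hR₁L]
      push_cast
      push_cast at hlX
      linarith only [h2, h3, hlX, hSL, hL100]
    · rw [mem_biUnion]
      refine ⟨(u, v), ?_, ?_⟩
      · rw [mem_product, hUU, Fintype.mem_piFinset, Fintype.mem_piFinset]
        exact ⟨fun i => mem_Icc.2 (abs_le.1 (hu' i)), fun i => mem_Icc.2 (abs_le.1 (hv' i))⟩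
      rw [mem_biUnion]
      refine ⟨fun i => (d i, e i), ?_, ?_⟩
      · rw [hQ, mem_filter, Fintype.mem_piFinset]
        refine ⟨fun i => ?_, w, ?_, fun i => hlin i⟩
        · rw [mem_Box]
          exact ⟨⟨hd1 i, hdX i⟩, ⟨he1 i, heX i⟩⟩
        · rw [hWj, mem_filter, Fintype.mem_piFinset]
          refine ⟨fun i => mem_Icc.2 ⟨hw2 i, (hwmx i).trans hj1.le⟩, hwW, fun i => ?_⟩
          refine (Real.rpow_le_rpow (by positivity) hj2r hρ0.le).trans ?_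
          rw [hi₁]
          exact (hw i).2 i₁
      · rw [Fintype.mem_piFinset]
        intro i
        rw [mem_filter]
        exact ⟨hmB' i, hmE i, Nat.lcm_dvd (hd i) (he i)⟩
  have hcard : ((Box'.filter (fun m => ∃ w ∈ W, CombT F b θ ρ N m w)).card : ℝ) ≤
      ((Box'.filter (fun m => ∃ i, m i ∈ E i)).card : ℝ) + ∑ j ∈ JJ, ∑ p ∈ UU ×ˢ UU, ∑ x ∈ Q j p.1 p.2,
        ((Fintype.piFinset (fun i => (Icc 1 N).filter (fun m => m ∉ E i ∧ Nat.lcm (x i).1 (x i).2 ∣ F i m))).card : ℝ) := by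
    have h1 := (card_le_card hcov).trans ((card_union_le _ _).trans (Nat.add_le_add_left (card_biUnion_le.trans
      (sum_le_sum (fun j _ => card_biUnion_le.trans (sum_le_sum (fun p _ => card_biUnion_le))))) _))
    exact_mod_cast h1
  have hgoal : ({m : Fin k → ℕ | (∀ i, 1 ≤ m i ∧ m i ≤ N) ∧ ∃ w ∈ W, CombT F b θ ρ N m w}.ncard : ℝ) =
      ((Box'.filter (fun m => ∃ w ∈ W, CombT F b θ ρ N m w)).card : ℝ) := by
    rw [← Set.ncard_coe_finset]
    congr 2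
    ext m
    simp only [hBox, coe_filter, Fintype.mem_piFinset, mem_Icc, Set.mem_ofPred_eq]
  rw [hgoal]
  refine hcard.trans ?_
  have hNk : (0 : ℝ) ≤ (N : ℝ) ^ k := by positivity
  have hj0 : ∀ j ∈ JJ, Real.exp (L ^ b) ≤ ((2 ^ j : ℕ) : ℝ) := by
    intro j hj
    rw [hJJ, mem_filter] at hj
    exact hj.2
  have hUUc : ((UU ×ˢ UU).card : ℝ) = (2 * (U : ℝ) + 1) ^ (2 * k) := by
    rw [card_product, hUU, Fintype.card_piFinset_const, Int.card_Icc]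
    have h1 : ((U : ℤ) + 1 - -(U : ℤ)).toNat = 2 * U + 1 := by omega
    rw [h1]
    push_cast
    ring
  have hRL' : 0 < R₁ * L + 1 := by positivity
  have hbound : ∀ j ∈ JJ, ∑ p ∈ UU ×ˢ UU, ∑ x ∈ Q j p.1 p.2, ((Fintype.piFinset (fun i => (Icc 1 N).filter
      (fun m => m ∉ E i ∧ Nat.lcm (x i).1 (x i).2 ∣ F i m))).card : ℝ) ≤
        (N : ℝ) ^ k * (Real.exp (-(L ^ c)) / 2 / (R₁ * L + 1)) := by
    intro j hj
    have hX1n : 1 ≤ 2 ^ j := Nat.one_le_two_pow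
    obtain ⟨Z, hZ⟩ : ∃ Z : ℝ, Z = (C₁ * (U * (1 + Real.log X)) ^ k * ((2 ^ j : ℕ) : ℝ) ^ (-δ)) ^ (1 - 1 / q) *
        (((1 + Real.log (X * X : ℕ)) ^ ((K + 1) * 4)) ^ k) ^ (1 / q) := ⟨_, rfl⟩
    have hp : ∀ p ∈ UU ×ˢ UU, ∑ x ∈ Q j p.1 p.2, ((Fintype.piFinset (fun i => (Icc 1 N).filter
        (fun m => m ∉ E i ∧ Nat.lcm (x i).1 (x i).2 ∣ F i m))).card : ℝ) ≤ (N : ℝ) ^ k * (Λ ^ k * Z) := by
      intro p hp
      rw [mem_product, hUU, Fintype.mem_piFinset, Fintype.mem_piFinset] at hp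
      have hQB : Q j p.1 p.2 ⊆ Fintype.piFinset (fun _ : Fin k => Box X) := by rw [hQ]; exact filter_subset _ _
      have hQi : ∀ x ∈ Q j p.1 p.2, ∀ i, 1 ≤ Nat.lcm (x i).1 (x i).2 := fun x hx i =>
        lcm_pos' (Fintype.mem_piFinset.1 (hQB hx) i)
      have hg : ∀ x ∈ Q j p.1 p.2, ((Fintype.piFinset (fun i => (Icc 1 N).filter
          (fun m => m ∉ E i ∧ Nat.lcm (x i).1 (x i).2 ∣ F i m))).card : ℝ) ≤
          (N : ℝ) ^ k * Λ ^ k * ∏ i, ((T (J + 1) (Nat.lcm (x i).1 (x i).2) : ℝ) / (Nat.lcm (x i).1 (x i).2 : ℕ)) := by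
        intro x hx
        rw [Fintype.card_piFinset]
        push_cast
        calc ∏ i, ((((Icc 1 N).filter (fun m => m ∉ E i ∧ Nat.lcm (x i).1 (x i).2 ∣ F i m)).card : ℕ) : ℝ) ≤
              ∏ i, ((N : ℝ) * (Λ * ((T (J + 1) (Nat.lcm (x i).1 (x i).2) : ℝ) / (Nat.lcm (x i).1 (x i).2 : ℕ)))) := by
              apply prod_le_prod
              · intro i _
                exact Nat.cast_nonneg _
              · intro i _
                exact hE2 i _ (hQi x hx i)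
          _ = _ := by
              rw [prod_mul_distrib, prod_mul_distrib, prod_const, prod_const, card_univ, Fintype.card_fin]
              ring
      refine (sum_le_sum hg).trans ?_
      rw [← mul_sum, mul_assoc]
      apply mul_le_mul_of_nonneg_left _ hNk
      apply mul_le_mul_of_nonneg_left _ (by positivity)
      rw [hZ]
      refine holderP (Q j p.1 p.2) (fun x i => Nat.lcm (x i).1 (x i).2) hQi hq1 hK1 ?_ (all_pairsT K hX1 _ hQB)
      refine (pairs_inT hX1 (W := Wj j) (fun w hw i => ?_) (Q j p.1 p.2) hQB (U := U)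
        (fun i => abs_le.2 (mem_Icc.1 (hp.1 i))) (fun i => abs_le.2 (mem_Icc.1 (hp.2 i))) (fun x hx => ?_)).trans ?_
      · rw [hWj, mem_filter, Fintype.mem_piFinset] at hw
        have := (mem_Icc.1 (hw.1 i)).1
        omega
      · rw [hQ, mem_filter] at hx
        exact hx.2
      · have h1 := scale_sum2 (W := W) (C₀ := |C₀|) (M := U * (1 + Real.log X)) hCd0 (by positivity) hε.le hρ1 hδd hCd hX1n
          ((hW _ hX1n).trans (mul_le_mul_of_nonneg_right (le_abs_self _) (by positivity)))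
        rw [hWj]
        refine le_trans (le_of_eq ?_) (h1.trans (le_of_eq ?_))
        · apply sum_congr rfl
          intro w _
          apply prod_congr rfl
          intro i _
          ring
        · rw [hC₁, mul_pow (8 * Cd)]
          ring
    refine (sum_le_sum hp).trans ?_
    rw [sum_const, nsmul_eq_mul, hUUc]
    have h1 : (R₁ * L + 1) * ((2 * (U : ℝ) + 1) ^ (2 * k) * (Λ ^ k * Z)) ≤ Real.exp (-(L ^ c)) / 2 := by
      rw [hZ, hΛ]
      have hY1 : (1 : ℝ) ≤ ((2 ^ j : ℕ) : ℝ) := by exact_mod_cast Nat.one_le_two_pow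
      refine num3 hL100 hexpl k1 hLcS hC₁0 hδ hq1 hγd (by linarith only [hY1]) (hj0 j hj) hlX0 ?_ ?_ ?_ hR₁0
        (r1.trans k0) (r2.trans k0) hK2 ?_ (mul_R hl0 (by linarith only [r0]) u3) h8 hU1
      · linarith only [hlX, hRL, hR₁L, hL100, hlX0]
      · exact Real.log_nonneg (by exact_mod_cast Nat.mul_pos hX1 hX1)
      · push_cast
        rw [Real.log_mul (by positivity) (by positivity)]
        linarith only [hlX, hRL, hR₁L, hL100]
      · exact mul_R (by positivity) r3 k3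
    rw [mul_comm, ← le_div_iff₀ hRL'] at h1
    calc (2 * (U : ℝ) + 1) ^ (2 * k) * ((N : ℝ) ^ k * (Λ ^ k * Z)) = (N : ℝ) ^ k * ((2 * (U : ℝ) + 1) ^ (2 * k) * (Λ ^ k * Z)) := by
          ring
      _ ≤ _ := mul_le_mul_of_nonneg_left h1 hNk
  have hsum : ∑ j ∈ JJ, ∑ p ∈ UU ×ˢ UU, ∑ x ∈ Q j p.1 p.2, ((Fintype.piFinset (fun i => (Icc 1 N).filter
      (fun m => m ∉ E i ∧ Nat.lcm (x i).1 (x i).2 ∣ F i m))).card : ℝ) ≤ (N : ℝ) ^ k * (Real.exp (-(L ^ c)) / 2) := by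
    refine (sum_le_sum hbound).trans ?_
    rw [sum_const, nsmul_eq_mul]
    have h1 : (JJ.card : ℝ) ≤ R₁ * L + 1 := by
      have h2 : JJ.card ≤ ⌊R₁ * L⌋₊ + 1 := by
        rw [hJJ]
        exact (card_filter_le _ _).trans (le_of_eq (card_range _))
      calc (JJ.card : ℝ) ≤ ((⌊R₁ * L⌋₊ + 1 : ℕ) : ℝ) := by exact_mod_cast h2
        _ ≤ R₁ * L + 1 := by
          push_cast
          linarith only [Nat.floor_le (show 0 ≤ R₁ * L by positivity)]
    calc (JJ.card : ℝ) * ((N : ℝ) ^ k * (Real.exp (-(L ^ c)) / 2 / (R₁ * L + 1)))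
        ≤ (R₁ * L + 1) * ((N : ℝ) ^ k * (Real.exp (-(L ^ c)) / 2 / (R₁ * L + 1))) :=
          mul_le_mul_of_nonneg_right h1 (by positivity)
      _ = _ := by field_simp
  have hE : ((Box'.filter (fun m => ∃ i, m i ∈ E i)).card : ℝ) ≤ (N : ℝ) ^ k * (Real.exp (-(L ^ c)) / 2) := by
    rw [hBox]
    refine (exc_count E hE1).trans ?_
    have hkk : k * Real.exp (-(L ^ c₁)) ≤ Real.exp (-(L ^ c)) / 2 := by
      have h1 : (2 * k : ℝ) ≤ Real.exp (2 * k) := le_exp_self _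
      have h2 : 2 * k + L ^ c ≤ L ^ c₁ := by
        have h3 : (2 * (k : ℝ) + 1) * L ^ c ≤ L ^ c₁ := mul_R hLc0 r5 u4
        have h4 : (2 * (k : ℝ)) * 1 ≤ 2 * k * L ^ c := mul_le_mul_of_nonneg_left hLc1 (by positivity)
        linarith only [h3, h4]
      have h3 : (2 * k : ℝ) * Real.exp (-(L ^ c₁)) ≤ Real.exp (-(L ^ c)) := by
        calc (2 * k : ℝ) * Real.exp (-(L ^ c₁)) ≤ Real.exp (2 * k) * Real.exp (-(L ^ c₁)) :=
              mul_le_mul_of_nonneg_right h1 (Real.exp_pos _).le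
          _ = Real.exp (2 * k + -(L ^ c₁)) := by rw [← Real.exp_add]
          _ ≤ Real.exp (-(L ^ c)) := Real.exp_le_exp.2 (by linarith only [h2])
      linarith only [h3]
    calc (k : ℝ) * ((N : ℝ) ^ k * Real.exp (-(L ^ c₁))) = (N : ℝ) ^ k * (k * Real.exp (-(L ^ c₁))) := by ring
      _ ≤ _ := mul_le_mul_of_nonneg_left hkk hNk
  calc ((Box'.filter (fun m => ∃ i, m i ∈ E i)).card : ℝ) + ∑ j ∈ JJ, ∑ p ∈ UU ×ˢ UU, ∑ x ∈ Q j p.1 p.2,
        ((Fintype.piFinset (fun i => (Icc 1 N).filter (fun m => m ∉ E i ∧ Nat.lcm (x i).1 (x i).2 ∣ F i m))).card : ℝ)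
      ≤ (N : ℝ) ^ k * (Real.exp (-(L ^ c)) / 2) + (N : ℝ) ^ k * (Real.exp (-(L ^ c)) / 2) := add_le_add hE hsum
    _ = (N : ℝ) ^ k * Real.exp (-(L ^ c)) := by ring

end Pool.Agent.U536.DS
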