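import Mathlib
import Pool.Agent.N318.TG.A
import Pool.Agent.U536.DS.U

set_option autoImplicit false

/-! Tuples near small multiples of tuples of linear combinations of two divisors of the values of multiplicative functions (helper536;
the count of the set `W` is that of helper318). -/

namespace Pool.Agent.U536.DS

open Finset Classical
open Pool.Agent.N733.TG (LM)
open Pool.Agent.N318.TG (count_shift abs_le_floor)
open Pool.Agent.U536.CF (exists_rho)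

/-- For all `k ≥ 1`, `c > 0` there are `η > 0` and `ρ < 1` such that: if `E` has at most `C T^(k - c)` elements in the box of
size `T` for all `T ≥ 1`, then for all but `N^k exp (-(log N)^c₁)` of the `k`-tuples `m` and all `w` with
`CombT`, no tuple `(a_i w_i + b_i)` with `a_i ≠ 0`,
`|a_i|, |b_i| ≤ (w_l)^η` for some `l` is in `E`. -/
theorem comb_near {k : ℕ} (hk : 1 ≤ k) {c : ℝ} (hc : 0 < c) : ∃ η ρ : ℝ, 0 < η ∧ 0 < ρ ∧ ρ < 1 ∧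
    ∀ F : Fin k → ℕ → ℕ, (∀ i, LM (F i)) → ∀ C θ b₁ c₁ : ℝ, θ < b₁ → b₁ < 1 → 0 ≤ c₁ → c₁ < 2 * b₁ - 1 →
      ∃ N₀ : ℕ, ∀ N : ℕ, N₀ ≤ N → ∀ E : Set (Fin k → ℤ),
      (∀ T : ℕ, 1 ≤ T → ({α : Fin k → ℤ | (∀ i, |α i| ≤ (T : ℤ)) ∧ α ∈ E}.ncard : ℝ) ≤ C * (T : ℝ) ^ ((k : ℝ) - c)) →
      ({m : Fin k → ℕ | (∀ i, 1 ≤ m i ∧ m i ≤ N) ∧ ¬ ∀ w : Fin k → ℕ, CombT F b₁ θ ρ N m w →
        ∀ a b : Fin k → ℤ, (∃ l, ∀ i, a i ≠ 0 ∧ |(a i : ℝ)| ≤ (w l : ℝ) ^ η ∧ |(b i : ℝ)| ≤ (w l : ℝ) ^ η) →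
        (fun i => a i * (w i : ℤ) + b i) ∉ E}.ncard : ℝ) ≤ (N : ℝ) ^ k * Real.exp (-(Real.log N ^ c₁)) := by
  obtain ⟨c', hc'⟩ : ∃ c' : ℝ, c' = min c 1 := ⟨_, rfl⟩
  have hc'0 : 0 < c' := by rw [hc']; exact lt_min hc one_pos
  have hc'c : c' ≤ c := by rw [hc']; exact min_le_left _ _
  have hc'1 : c' ≤ 1 := by rw [hc']; exact min_le_right _ _
  have hk1 : (1 : ℝ) ≤ k := by exact_mod_cast hk
  obtain ⟨η, hη⟩ : ∃ η : ℝ, η = c' / (6 * k) := ⟨_, rfl⟩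
  have hη0 : 0 < η := by rw [hη]; positivity
  have hηk : 3 * k * η = c' / 2 := by rw [hη]; field_simp; norm_num
  obtain ⟨ρ, hρ0, hρ1, hρ⟩ := exists_rho hk (show 0 < c' / 2 by linarith)
  refine ⟨η, ρ, hη0, hρ0, hρ1, fun F hF C θ b₁ c₁ hθ hb₁ hc₁ hcb₁ => ?_⟩
  obtain ⟨N₀, hN₀⟩ := avoidT2 hk hF hρ0 hρ1.le hρ (18 ^ k * C) hθ hb₁ hc₁ hcb₁
  refine ⟨N₀, fun N hN E hE => ?_⟩
  have hC : 0 ≤ C := by
    have h := hE 1 le_rfl
    have h1 : ((1 : ℕ) : ℝ) ^ ((k : ℝ) - c) = 1 := by rw [Nat.cast_one, Real.one_rpow]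
    rw [h1, mul_one] at h
    exact le_trans (Nat.cast_nonneg _) h
  obtain ⟨W, hW⟩ : ∃ W : Set (Fin k → ℕ), W = {w | ∃ a b : Fin k → ℤ, (∃ l, ∀ i, a i ≠ 0 ∧ |(a i : ℝ)| ≤ (w l : ℝ) ^ η ∧
      |(b i : ℝ)| ≤ (w l : ℝ) ^ η) ∧ (fun i => a i * (w i : ℤ) + b i) ∈ E} := ⟨_, rfl⟩
  have h1 := hN₀ N hN W (fun X hX => ?_)
  · refine le_trans (le_of_eq ?_) h1
    congr 2
    ext m
    simp only [Set.mem_ofPred_eq, hW]
    refine and_congr_right fun _ => ?_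
    push Not
    constructor
    · rintro ⟨w, hw, a, b, h2, h3⟩
      exact ⟨w, ⟨a, b, h2, h3⟩, hw⟩
    · rintro ⟨w, ⟨a, b, h2, h3⟩, hw⟩
      exact ⟨w, hw, a, b, h2, h3⟩
  · have hX1 : (1 : ℝ) ≤ X := by exact_mod_cast hX
    have hX0 : (0 : ℝ) < X := by linarith
    obtain ⟨Y, hY⟩ : ∃ Y : ℕ, Y = ⌊(X : ℝ) ^ η⌋₊ := ⟨_, rfl⟩
    have hYr : (Y : ℝ) ≤ (X : ℝ) ^ η := by rw [hY]; exact Nat.floor_le (by positivity)
    have hY1 : 1 ≤ Y := by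
      rw [hY]
      apply Nat.le_floor
      rw [Nat.cast_one]
      exact Real.one_le_rpow hX1 hη0.le
    have hY1r : (1 : ℝ) ≤ Y := by exact_mod_cast hY1
    obtain ⟨T, hT⟩ : ∃ T : ℕ, T = Y * X + Y := ⟨_, rfl⟩
    have hT1 : 1 ≤ T := by rw [hT]; omega
    have hT1r : (1 : ℝ) ≤ T := by exact_mod_cast hT1
    have hTr : (T : ℝ) ≤ 2 * (X : ℝ) ^ (1 + η) := by
      rw [Real.rpow_add hX0, Real.rpow_one, hT]
      push_cast
      nlinarith [mul_le_mul hYr hX1 (by norm_num) (by positivity : (0 : ℝ) ≤ (X : ℝ) ^ η)]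
    obtain ⟨S, hS⟩ : ∃ S : Finset (Fin k → ℤ), S = Fintype.piFinset fun _ : Fin k => Icc (-(Y : ℤ)) Y := ⟨_, rfl⟩
    have hScard : S.card = (2 * Y + 1) ^ k := by
      rw [hS, Fintype.card_piFinset_const, Int.card_Icc]
      congr 1
      omega
    obtain ⟨V, hV⟩ : ∃ V : (Fin k → ℤ) × (Fin k → ℤ) → Finset (Fin k → ℕ), V = fun p =>
        ((Fintype.piFinset fun _ : Fin k => Icc 2 X).filter (fun w => (fun i => p.1 i * (w i : ℤ) + p.2 i) ∈ E)) := ⟨_, rfl⟩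
    have hsub : {w : Fin k → ℕ | (∀ i, 2 ≤ w i ∧ w i ≤ X) ∧ w ∈ W} ⊆
        ((((S.filter fun a => ∀ i, a i ≠ 0) ×ˢ S).biUnion V : Finset (Fin k → ℕ)) : Set (Fin k → ℕ)) := by
      rintro w ⟨hw, hwW⟩
      rw [hW] at hwW
      obtain ⟨a, b, ⟨l, hl⟩, hab⟩ := hwW
      have hle : (w l : ℝ) ^ η ≤ (X : ℝ) ^ η :=
        Real.rpow_le_rpow (Nat.cast_nonneg _) (by exact_mod_cast (hw l).2) hη0.le
      rw [mem_coe, mem_biUnion]
      refine ⟨(a, b), ?_, ?_⟩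
      · rw [mem_product, mem_filter, hS, Fintype.mem_piFinset, Fintype.mem_piFinset]
        refine ⟨⟨fun i => ?_, fun i => (hl i).1⟩, fun i => ?_⟩
        · rw [mem_Icc, ← abs_le, hY]
          exact abs_le_floor ((hl i).2.1.trans hle)
        · rw [mem_Icc, ← abs_le, hY]
          exact abs_le_floor ((hl i).2.2.trans hle)
      · rw [hV]
        simp only
        rw [mem_filter, Fintype.mem_piFinset]
        exact ⟨fun i => mem_Icc.2 (hw i), hab⟩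
    have h2 := Set.ncard_le_ncard hsub (finite_toSet _)
    rw [Set.ncard_coe_finset] at h2
    have h3 : ∀ p ∈ (S.filter fun a => ∀ i, a i ≠ 0) ×ˢ S, (V p).card ≤
        {α : Fin k → ℤ | (∀ i, |α i| ≤ (T : ℤ)) ∧ α ∈ E}.ncard := by
      rintro ⟨a, b⟩ hp
      rw [mem_product, mem_filter, hS, Fintype.mem_piFinset, Fintype.mem_piFinset] at hp
      rw [hV]
      exact count_shift E X Y T hT.ge a b (fun i => ⟨hp.1.2 i, abs_le.2 (mem_Icc.1 (hp.1.1 i))⟩)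
        (fun i => abs_le.2 (mem_Icc.1 (hp.2 i)))
    have h4 := h2.trans (card_biUnion_le.trans ((sum_le_card_nsmul _ _ _ h3)))
    rw [card_product, smul_eq_mul] at h4
    have h5 : ((({w : Fin k → ℕ | (∀ i, 2 ≤ w i ∧ w i ≤ X) ∧ w ∈ W}.ncard : ℕ)) : ℝ) ≤
        ((2 * Y + 1 : ℕ) : ℝ) ^ k * ((2 * Y + 1 : ℕ) : ℝ) ^ k * (C * (T : ℝ) ^ ((k : ℝ) - c)) := by
      have h6 : (((S.filter fun a => ∀ i, a i ≠ 0).card * S.card : ℕ) : ℝ) ≤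
          ((2 * Y + 1 : ℕ) : ℝ) ^ k * ((2 * Y + 1 : ℕ) : ℝ) ^ k := by
        have h7 : (S.filter fun a => ∀ i, a i ≠ 0).card * S.card ≤ (2 * Y + 1) ^ k * (2 * Y + 1) ^ k := by
          rw [hScard]
          exact Nat.mul_le_mul_right _ ((card_filter_le _ _).trans hScard.le)
        exact_mod_cast h7
      calc ((({w : Fin k → ℕ | (∀ i, 2 ≤ w i ∧ w i ≤ X) ∧ w ∈ W}.ncard : ℕ)) : ℝ)
          ≤ (((S.filter fun a => ∀ i, a i ≠ 0).card * S.card : ℕ) : ℝ) *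
            (({α : Fin k → ℤ | (∀ i, |α i| ≤ (T : ℤ)) ∧ α ∈ E}.ncard : ℕ) : ℝ) := by exact_mod_cast h4
        _ ≤ _ := mul_le_mul h6 (hE T hT1) (Nat.cast_nonneg _) (by positivity)
    refine h5.trans ?_
    have e1 : ((2 * Y + 1 : ℕ) : ℝ) ≤ 3 * (X : ℝ) ^ η := by push_cast; linarith
    have e2 : ((2 * Y + 1 : ℕ) : ℝ) ^ k ≤ 3 ^ k * (X : ℝ) ^ (k * η) := by
      calc ((2 * Y + 1 : ℕ) : ℝ) ^ k ≤ (3 * (X : ℝ) ^ η) ^ k := pow_le_pow_left₀ (Nat.cast_nonneg _) e1 k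
        _ = 3 ^ k * (X : ℝ) ^ (k * η) := by
            rw [mul_pow, ← Real.rpow_natCast ((X : ℝ) ^ η), ← Real.rpow_mul hX0.le, mul_comm η]
    have e3 : (T : ℝ) ^ ((k : ℝ) - c) ≤ 2 ^ k * (X : ℝ) ^ ((1 + η) * ((k : ℝ) - c')) := by
      calc (T : ℝ) ^ ((k : ℝ) - c) ≤ (T : ℝ) ^ ((k : ℝ) - c') := Real.rpow_le_rpow_of_exponent_le hT1r (by linarith)
        _ ≤ (2 * (X : ℝ) ^ (1 + η)) ^ ((k : ℝ) - c') := Real.rpow_le_rpow (by positivity) hTr (by linarith)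
        _ = 2 ^ ((k : ℝ) - c') * (X : ℝ) ^ ((1 + η) * ((k : ℝ) - c')) := by
            rw [Real.mul_rpow (by norm_num) (by positivity), ← Real.rpow_mul hX0.le]
        _ ≤ 2 ^ k * (X : ℝ) ^ ((1 + η) * ((k : ℝ) - c')) := by
            apply mul_le_mul_of_nonneg_right _ (by positivity)
            rw [← Real.rpow_natCast]
            exact Real.rpow_le_rpow_of_exponent_le (by norm_num) (by linarith)
    have e4 : (X : ℝ) ^ (k * η) * (X : ℝ) ^ (k * η) * (X : ℝ) ^ ((1 + η) * ((k : ℝ) - c')) ≤ (X : ℝ) ^ ((k : ℝ) - c' / 2) := by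
      rw [← Real.rpow_add hX0, ← Real.rpow_add hX0]
      apply Real.rpow_le_rpow_of_exponent_le hX1
      nlinarith [mul_pos hη0 hc'0]
    calc ((2 * Y + 1 : ℕ) : ℝ) ^ k * ((2 * Y + 1 : ℕ) : ℝ) ^ k * (C * (T : ℝ) ^ ((k : ℝ) - c))
        ≤ (3 ^ k * (X : ℝ) ^ (k * η)) * (3 ^ k * (X : ℝ) ^ (k * η)) *
          (C * (2 ^ k * (X : ℝ) ^ ((1 + η) * ((k : ℝ) - c')))) :=
          mul_le_mul (mul_le_mul e2 e2 (by positivity) (by positivity)) (mul_le_mul_of_nonneg_left e3 hC)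
            (by positivity) (by positivity)
      _ = 18 ^ k * C * ((X : ℝ) ^ (k * η) * (X : ℝ) ^ (k * η) * (X : ℝ) ^ ((1 + η) * ((k : ℝ) - c'))) := by
          have : (18 : ℝ) ^ k = 3 ^ k * 3 ^ k * 2 ^ k := by rw [← mul_pow, ← mul_pow]; norm_num
          rw [this]
          ring
      _ ≤ 18 ^ k * C * (X : ℝ) ^ ((k : ℝ) - c' / 2) := mul_le_mul_of_nonneg_left e4 (by positivity)

end Pool.Agent.U536.DS
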