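import Pool.Agent.U536.CF.BZ
import Pool.Agent.U536.DS.F

set_option autoImplicit false

/-!
# Barnes zeta functions for almost all weights: ordinates near integral combinations of two divisors of a value of a
multiplicative function (helper536, tool of helper407)
-/

namespace Pool.Agent.U536.DS

open Filter MeasureTheory
open Pool.Agent.H131R5.BZ Pool.Agent.Y930.Bz Pool.Agent.Y616.BM
open Pool.Agent.N733.TG (LM Expanding)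
open Pool.Agent.N407.BZ (BadAt ff_count half_count half_exp floor_win bad_floor)
open Pool.Agent.U536.CF (exists_s')

/-- near the integral combinations of two divisors of a value of a multiplicative function -/
theorem ff_comb {d : ℕ} {v : Fin d → ℝ} (hv : LinearIndependent ℚ v) (hGd : Good v) {r : ℕ} (hr : 2 ≤ r)
    {a : ℝ} (ha : 0 < a) {w : Fin r → ℝ} (hw : ∀ i, 0 < w i)
    (hspan : Submodule.span ℚ (Set.range w) = Submodule.span ℚ (Set.range v)) {c : ℕ → ℂ} (hc : Tay a w c)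
    {f : ℕ → ℕ} (hf : LM f) {G : ℕ → ℝ} {δ : ℝ} (hG : Expanding G δ) (σ₁ : ℝ) {η κ θ b c' : ℝ} (hη : 0 ≤ η) (hκ : 0 ≤ κ)
    (hκ1 : κ < 1) (h : δ * (1 - 2 * η) + κ < 1) (hθ : θ < b) (hb : b < 1) (hc0 : 0 ≤ c') (hcb : c' < 2 * b - 1) :
    ∃ N₀ : ℕ, ∀ N : ℕ, N₀ ≤ N →
      ({m : ℕ | 1 ≤ m ∧ m ≤ N ∧ ∃ u : ℕ, Comb f b θ N m u ∧ ∃ t σ : ℝ, 2 ≤ t ∧ |t - G u| ≤ (u : ℝ) ^ κ ∧
        (r : ℝ) - d / 2 ≤ σ ∧ σ ≤ σ₁ ∧
        t ^ η < ‖FF a w c ((σ : ℂ) + t * Complex.I)‖}.ncard : ℝ) ≤ N * Real.exp (-(Real.log N ^ c')) := by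
  obtain ⟨s, hs, hs1, hs2⟩ := exists_s' hG.one_le hκ1 h
  obtain ⟨K, hK, h1⟩ := ff_count hv hGd hr ha hw hspan hc σ₁ hη hs hs1
  obtain ⟨N₀, hN₀⟩ := comb_windows_unif (T := ℕ) (fun n : ℕ => (n : ℝ) / 2) hf (half_exp hG) hs.le hκ hs2 hθ hb hc0 hcb
    (K * 2 ^ s)
  refine ⟨N₀, fun N hN => ?_⟩
  have h2 := hN₀ {n : ℕ | 1 ≤ n ∧ BadAt a w c ((r : ℝ) - d / 2) σ₁ η n} (fun X hX => half_count _ hK hs h1 X hX) N hN
  refine le_trans ?_ h2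
  have hfin : {m : ℕ | 1 ≤ m ∧ m ≤ N ∧ ∃ u : ℕ, Comb f b θ N m u ∧
      ∃ t ∈ {n : ℕ | 1 ≤ n ∧ BadAt a w c ((r : ℝ) - d / 2) σ₁ η n},
      |(t : ℝ) / 2 - G u / 2| ≤ (u : ℝ) ^ κ}.Finite := (Set.finite_Iic N).subset (fun m hm => hm.2.1)
  refine Nat.cast_le.2 (Set.ncard_le_ncard ?_ hfin)
  rintro m ⟨g1, g2, u, gu, t, σ, g3, g4, g5, g6, g7⟩
  have hfm : (1 : ℝ) ≤ u := by exact_mod_cast gu.one_le
  exact ⟨g1, g2, u, gu, ⌊t⌋₊, bad_floor g3 g5 g6 g7, floor_win (by linarith) hfm hκ g4⟩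

end Pool.Agent.U536.DS
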