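import Pool.Agent.U536.CF.Tw
import Pool.Agent.U536.DS.F

set_option autoImplicit false

/-! Properties of nonzero integers (for instance of quadratic twists) which are bad for few integers at every scale; linear
combinations of two divisors (helper536). -/

namespace Pool.Agent.U536.DS

open Pool.Agent.N733.TG (LM Expanding)
open Pool.Agent.U536.CF (fin_absR card_absR dyadic_unif)

/-- **Bad integers at scales.** `P N D` is a property of the integers `D` at the scale `N`, with at most `N ^ (1 - c)` bad nonzero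
`|D| ≤ N`; `Q D` implies `P N D` for `D₀ ≤ |D| ≤ N < 2 |D|`. For all `m ≤ N` but `N exp (-(log N)^c')`: for EVERY `w` a combination of two divisors with `f m`, no `D ≠ 0` with `| |D| - G w | ≤ w ^ κ` has the property `Q`. -/
theorem comb_twists {c : ℝ} (hc1 : c < 1) (N₀ : ℕ) (D₀ : ℝ) {f : ℕ → ℕ} (hf : LM f) {G : ℕ → ℝ} {d : ℝ}
    (hG : Expanding G d) {κ θ b c' : ℝ} (hκ : 0 ≤ κ) (h1 : d * (1 - c) + κ < 1) (hθ : θ < b) (hb : b < 1)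
    (hc0 : 0 ≤ c') (hcb : c' < 2 * b - 1) :
    ∃ N₁ : ℕ, ∀ (P : ℕ → ℤ → Prop) (Q : ℤ → Prop),
      (∀ N : ℕ, N₀ ≤ N → ({D : ℤ | D ≠ 0 ∧ |D| ≤ N ∧ P N D}.ncard : ℝ) ≤ (N : ℝ) ^ (1 - c)) →
      (∀ (D : ℤ) (N : ℕ), D₀ ≤ |(D : ℝ)| → |(D : ℝ)| ≤ N → (N : ℝ) < 2 * |(D : ℝ)| → Q D → P N D) → ∀ N : ℕ, N₁ ≤ N →
      ({m : ℕ | 1 ≤ m ∧ m ≤ N ∧ ¬ ∀ w : ℕ, Comb f b θ N m w → ∀ D : ℤ, D ≠ 0 → |(|D| : ℝ) - G w| ≤ (w : ℝ) ^ κ →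
        ¬ Q D}.ncard : ℝ) ≤ N * Real.exp (-(Real.log N ^ c')) := by
  obtain ⟨X₁, hX₁⟩ : ∃ X₁ : ℝ, X₁ = max (2 * |D₀|) (N₀ + 1) := ⟨_, rfl⟩
  have hX₁1 : 1 ≤ X₁ := by rw [hX₁]; exact le_trans (by linarith [Nat.cast_nonneg (α := ℝ) N₀]) (le_max_right _ _)
  obtain ⟨K, hK0, hK⟩ := dyadic_unif (C := 2 * X₁ + 1) (s := 1 - c) (by linarith)
  obtain ⟨N₁, hN₁⟩ := comb_windows_unif (fun D : ℤ => |(D : ℝ)|) hf hG (s := 1 - c) (by linarith) hκ h1 hθ hb hc0 hcb K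
  refine ⟨N₁, fun P Q hP hQ N hN => ?_⟩
  have key := hN₁ {D : ℤ | D ≠ 0 ∧ Q D} (fun X hX => hK _ (fun X hX => ?_) X hX) N hN
  · refine le_trans (le_of_eq ?_) key
    congr 2
    ext m
    simp only [Set.mem_ofPred_eq]
    push Not
    constructor
    · rintro ⟨a1, a2, w, hw, v, a3, a4, a5⟩
      exact ⟨a1, a2, w, hw, v, ⟨a3, a5⟩, by exact_mod_cast a4⟩
    · rintro ⟨a1, a2, w, hw, v, ⟨a3, a5⟩, a4⟩
      exact ⟨a1, a2, w, hw, v, a3, by exact_mod_cast a4, a5⟩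
  · have hXs : 1 ≤ X ^ (1 - c) := Real.one_le_rpow (by linarith) (by linarith)
    have hfin : {x : ℤ | x ∈ {D : ℤ | D ≠ 0 ∧ Q D} ∧ X / 2 < |(x : ℝ)| ∧ |(x : ℝ)| ≤ X}.Finite :=
      (fin_absR {D : ℤ | D ≠ 0 ∧ Q D} X).subset (fun x hx => ⟨hx.1, hx.2.2⟩)
    rcases lt_or_ge X X₁ with h2 | h2
    · have h3 := card_absR {D : ℤ | D ≠ 0 ∧ Q D} (X := X) (by linarith)
      have h4 : ({x : ℤ | x ∈ {D : ℤ | D ≠ 0 ∧ Q D} ∧ X / 2 < |(x : ℝ)| ∧ |(x : ℝ)| ≤ X}.ncard : ℝ) ≤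
          ({x : ℤ | x ∈ {D : ℤ | D ≠ 0 ∧ Q D} ∧ |(x : ℝ)| ≤ X}.ncard : ℝ) := by
        have hsub : {x : ℤ | x ∈ {D : ℤ | D ≠ 0 ∧ Q D} ∧ X / 2 < |(x : ℝ)| ∧ |(x : ℝ)| ≤ X} ⊆
            {x : ℤ | x ∈ {D : ℤ | D ≠ 0 ∧ Q D} ∧ |(x : ℝ)| ≤ X} := fun x hx => ⟨hx.1, hx.2.2⟩
        exact_mod_cast Set.ncard_le_ncard hsub (fin_absR {D : ℤ | D ≠ 0 ∧ Q D} X)
      have h5 : (2 * X₁ + 1) * 1 ≤ (2 * X₁ + 1) * X ^ (1 - c) := mul_le_mul_of_nonneg_left hXs (by linarith)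
      linarith
    · have hD : 2 * D₀ ≤ X := by
        have h3 : 2 * |D₀| ≤ X₁ := by rw [hX₁]; exact le_max_left _ _
        have h4 := le_abs_self D₀
        linarith
      have hN0 : (N₀ : ℝ) + 1 ≤ X := le_trans (by rw [hX₁]; exact le_max_right _ _) h2
      have hfl : N₀ ≤ ⌊X⌋₊ := Nat.le_floor (by linarith)
      have hflX : ((⌊X⌋₊ : ℕ) : ℝ) ≤ X := Nat.floor_le (by linarith)
      have hsub : {x : ℤ | x ∈ {D : ℤ | D ≠ 0 ∧ Q D} ∧ X / 2 < |(x : ℝ)| ∧ |(x : ℝ)| ≤ X} ⊆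
          {D : ℤ | D ≠ 0 ∧ |D| ≤ (⌊X⌋₊ : ℕ) ∧ P ⌊X⌋₊ D} := by
        rintro x ⟨⟨g1, g2⟩, g3, g4⟩
        have h5 : |x| ≤ ((⌊X⌋₊ : ℕ) : ℤ) := by
          have h6 : x.natAbs ≤ ⌊X⌋₊ := by
            apply Nat.le_floor
            rw [Nat.cast_natAbs, Int.cast_abs]
            exact g4
          rw [Int.abs_eq_natAbs]
          exact_mod_cast h6
        refine ⟨g1, h5, hQ x ⌊X⌋₊ (by linarith) ?_ (by linarith) g2⟩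
        have : ((|x| : ℤ) : ℝ) ≤ (((⌊X⌋₊ : ℕ) : ℤ) : ℝ) := by exact_mod_cast h5
        rwa [Int.cast_abs, Int.cast_natCast] at this
      have hfin2 : {D : ℤ | D ≠ 0 ∧ |D| ≤ (⌊X⌋₊ : ℕ) ∧ P ⌊X⌋₊ D}.Finite := by
        apply (Set.finite_Icc (-((⌊X⌋₊ : ℕ) : ℤ)) ((⌊X⌋₊ : ℕ) : ℤ)).subset
        rintro x ⟨_, hx, _⟩
        exact abs_le.1 hx
      have h6 : ({x : ℤ | x ∈ {D : ℤ | D ≠ 0 ∧ Q D} ∧ X / 2 < |(x : ℝ)| ∧ |(x : ℝ)| ≤ X}.ncard : ℝ) ≤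
          ({D : ℤ | D ≠ 0 ∧ |D| ≤ (⌊X⌋₊ : ℕ) ∧ P ⌊X⌋₊ D}.ncard : ℝ) := by exact_mod_cast Set.ncard_le_ncard hsub hfin2
      have h7 := hP ⌊X⌋₊ hfl
      have h8 : ((⌊X⌋₊ : ℕ) : ℝ) ^ (1 - c) ≤ X ^ (1 - c) :=
        Real.rpow_le_rpow (Nat.cast_nonneg _) hflX (by linarith)
      have h9 : 1 * X ^ (1 - c) ≤ (2 * X₁ + 1) * X ^ (1 - c) := mul_le_mul_of_nonneg_right (by linarith) (by positivity)
      linarith

/-- **Bad pairs `(D, x)` with `x` in a range.** `B D x` holds, at every scale `N`, for at most `N ^ (1 - c)` of the nonzero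
`|D| ≤ N` for some `x` between `(log N)^C` and `N ^ c`. For all `m ≤ N` but `N exp (-(log N)^c')`: for EVERY `w` with a large common
factor with `f m`, for all `D ≠ 0` with `| |D| - G w | ≤ w ^ κ` and all `x` between `(log |D|)^(C + 1)` and `|D| ^ c`, `B D x` is
false. -/
theorem comb_range {C c : ℝ} (hC : 0 < C) (hc : 0 < c) (hc1 : c < 1) (N₀ : ℕ) {f : ℕ → ℕ} (hf : LM f) {G : ℕ → ℝ} {d : ℝ}
    (hG : Expanding G d) {κ θ b c' : ℝ} (hκ : 0 ≤ κ) (h1 : d * (1 - c) + κ < 1) (hθ : θ < b) (hb : b < 1)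
    (hc0 : 0 ≤ c') (hcb : c' < 2 * b - 1) :
    ∃ N₁ : ℕ, ∀ B : ℤ → ℕ → Prop,
      (∀ N : ℕ, N₀ ≤ N → ({D : ℤ | D ≠ 0 ∧ |D| ≤ N ∧ ∃ x : ℕ, (Real.log N) ^ C ≤ x ∧ (x : ℝ) ≤ (N : ℝ) ^ c ∧ B D x}.ncard : ℝ) ≤
        (N : ℝ) ^ (1 - c)) → ∀ N : ℕ, N₁ ≤ N →
      ({m : ℕ | 1 ≤ m ∧ m ≤ N ∧ ¬ ∀ w : ℕ, Comb f b θ N m w → ∀ D : ℤ, D ≠ 0 → |(|D| : ℝ) - G w| ≤ (w : ℝ) ^ κ →
        ∀ x : ℕ, (Real.log |(D : ℝ)|) ^ (C + 1) ≤ x → (x : ℝ) ≤ |(D : ℝ)| ^ c → ¬ B D x}.ncard : ℝ) ≤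
        N * Real.exp (-(Real.log N ^ c')) := by
  obtain ⟨N₁, hN₁⟩ := comb_twists hc1 N₀ (Real.exp (2 ^ C + 1)) hf hG hκ h1 hθ hb hc0 hcb
  refine ⟨N₁, fun B hB N hN => ?_⟩
  have key := hN₁ (fun N D => ∃ x : ℕ, (Real.log N) ^ C ≤ x ∧ (x : ℝ) ≤ (N : ℝ) ^ c ∧ B D x)
    (fun D => ∃ x : ℕ, (Real.log |(D : ℝ)|) ^ (C + 1) ≤ x ∧ (x : ℝ) ≤ |(D : ℝ)| ^ c ∧ B D x) hB (fun D M hD hDM hM hQ => ?_) N hN
  · refine le_trans (le_of_eq ?_) key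
    congr 2
    ext m
    simp only [Set.mem_ofPred_eq]
    push Not
    rfl
  · obtain ⟨x, hx1, hx2, hx3⟩ := hQ
    have h2C : (0 : ℝ) < 2 ^ C := by positivity
    have hD0 : 0 < |(D : ℝ)| := lt_of_lt_of_le (Real.exp_pos _) hD
    have hlog : 2 ^ C + 1 ≤ Real.log |(D : ℝ)| := by
      rw [Real.le_log_iff_exp_le hD0]
      exact hD
    have hM0 : (0 : ℝ) < M := hD0.trans_le hDM
    refine ⟨x, le_trans ?_ hx1, hx2.trans (Real.rpow_le_rpow hD0.le hDM hc.le), hx3⟩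
    have hl1 : Real.log M ≤ 2 * Real.log |(D : ℝ)| := by
      have h3 : Real.log M ≤ Real.log (2 * |(D : ℝ)|) := Real.log_le_log hM0 hM.le
      rw [Real.log_mul (by norm_num) hD0.ne'] at h3
      have h4 : Real.log 2 ≤ 1 := by linarith [Real.log_two_lt_d9]
      linarith
    have hl0 : 0 ≤ Real.log M := Real.log_nonneg (by
      have h5 : (1 : ℝ) ≤ Real.exp (2 ^ C + 1) := Real.one_le_exp (by linarith)
      linarith)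
    have hlD : 0 < Real.log |(D : ℝ)| := by linarith
    calc Real.log M ^ C ≤ (2 * Real.log |(D : ℝ)|) ^ C := Real.rpow_le_rpow hl0 hl1 hC.le
      _ = 2 ^ C * Real.log |(D : ℝ)| ^ C := Real.mul_rpow (by norm_num) hlD.le
      _ ≤ Real.log |(D : ℝ)| * Real.log |(D : ℝ)| ^ C := mul_le_mul_of_nonneg_right (by linarith) (by positivity)
      _ = Real.log |(D : ℝ)| ^ (C + 1) := by rw [Real.rpow_add hlD, Real.rpow_one, mul_comm]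

end Pool.Agent.U536.DS
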