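import Pool.Agent.U536.CF.Sc
import Pool.Agent.U536.DS.Tw

set_option autoImplicit false

/-! Properties of natural numbers which are bad for few numbers at every scale; linear combinations of two divisors
(helper536). -/

namespace Pool.Agent.U536.DS

open Pool.Agent.N733.TG (LM Expanding)
open Pool.Agent.U536.CF (scale_count)

/-- **Bad numbers at scales.** `P N n` is a property of the integers `n` at the scale `N`, with at most `C N ^ s` bad `n ≤ N`; `Q n`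
implies `P N n` for `D₀ ≤ n ≤ N < 2 n`. For all `m ≤ N` but `N exp (-(log N)^c)`: for EVERY `w` with a large common factor with
`f m`, no `n ≥ 1` with `| n - G w | ≤ w ^ κ` has the property `Q`. -/
theorem comb_scale_nat {s C : ℝ} (hs : 0 < s) (N₀ : ℕ) (D₀ : ℝ) {f : ℕ → ℕ} (hf : LM f) {G : ℕ → ℝ} {d : ℝ}
    (hG : Expanding G d) {κ θ b c : ℝ} (hκ : 0 ≤ κ) (h1 : d * s + κ < 1) (hθ : θ < b) (hb : b < 1)
    (hc0 : 0 ≤ c) (hcb : c < 2 * b - 1) :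
    ∃ N₁ : ℕ, ∀ (P : ℕ → ℕ → Prop) (Q : ℕ → Prop),
      (∀ N : ℕ, N₀ ≤ N → ({n : ℕ | 1 ≤ n ∧ n ≤ N ∧ P N n}.ncard : ℝ) ≤ C * (N : ℝ) ^ s) →
      (∀ n N : ℕ, 1 ≤ n → D₀ ≤ n → n ≤ N → N < 2 * n → Q n → P N n) → ∀ N : ℕ, N₁ ≤ N →
      ({m : ℕ | 1 ≤ m ∧ m ≤ N ∧ ¬ ∀ w : ℕ, Comb f b θ N m w → ∀ n : ℕ, 1 ≤ n → |(n : ℝ) - G w| ≤ (w : ℝ) ^ κ →
        ¬ Q n}.ncard : ℝ) ≤ N * Real.exp (-(Real.log N ^ c)) := by
  obtain ⟨K, hK0, hK⟩ := scale_count (C := C) hs N₀ D₀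
  obtain ⟨N₁, hN₁⟩ := comb_good_nat_unif hf hG hs.le hκ h1 hθ hb hc0 hcb K
  refine ⟨N₁, fun P Q hP hQ N hN => ?_⟩
  refine le_trans (le_of_eq ?_) (hN₁ Q (fun X hX => hK P Q hP hQ X hX) N hN)
  congr 2
  ext m
  simp only [Set.mem_ofPred_eq]
  push Not
  rfl

end Pool.Agent.U536.DS
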