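import Pool.Agent.U536.DS.U
import Pool.Agent.N760.SC.A

set_option autoImplicit false

/-! Properties of tuples of integers which are bad for few tuples at every scale, near tuples of linear combinations of two
divisors of the values `F_i(m_i)` (helper536). -/

namespace Pool.Agent.U536.DS

open Finset Filter Topology
open Pool.Agent.N733.TG (LM)
open Pool.Agent.N760.SC (BadTuples NearTuple count_scales count_near)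

/-- A property of tuples at scales, bad for at most `K N ^ (k - 1)` tuples at the scale `N`. For all tuples `m` in `[1, N] ^ k`
but `N ^ k exp (-(log N) ^ c)`: for every tuple `w` with `CombT`, no
tuple `s` near `w` is bad at a scale `T` with all `s_i` in `[T, κ T]`. -/
theorem comb_scales {k : ℕ} (hk : 1 ≤ k) (κ : ℕ) (P Q : ℕ → (Fin k → ℕ) → Prop)
    (hPQ : ∀ (N T : ℕ) (s : Fin k → ℕ), N ≤ T → T < 2 * N → P T s → Q N s)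
    (hQ : ∃ K N₀ : ℕ, ∀ N : ℕ, N₀ ≤ N →
      {s : Fin k → ℕ | (∀ j, N ≤ s j ∧ s j ≤ (2 * κ) * N) ∧ Q N s}.ncard ≤ K * N ^ (k - 1))
    {F : Fin k → ℕ → ℕ} (hF : ∀ i, LM (F i)) {θ ρ : ℝ} (hθ : 0 ≤ θ) (hρ1 : ρ ≤ 1) (hsum : k * (1 - ρ) + k * θ < 1)
    {σ b c : ℝ} (hσ : σ < b) (hb : b < 1) (hc : 0 ≤ c) (hcb : c < 2 * b - 1) :
    ∃ N₀ : ℕ, ∀ N : ℕ, N₀ ≤ N →
      ({m : Fin k → ℕ | (∀ i, 1 ≤ m i ∧ m i ≤ N) ∧ ¬ ∀ w : Fin k → ℕ, CombT F b σ ρ N m w → ∀ (s : Fin k → ℕ) (T : ℕ), 1 ≤ T →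
        (∀ i, T ≤ s i ∧ s i ≤ κ * T) → (∀ i, |(s i : ℝ) - w i| ≤ (w i : ℝ) ^ θ) → ¬ P T s}.ncard : ℝ) ≤
        (N : ℝ) ^ k * Real.exp (-(Real.log N ^ c)) := by
  have hk1 : (1 : ℝ) ≤ k := by exact_mod_cast hk
  have hk2 : 0 ≤ (k : ℝ) * (1 - ρ) := mul_nonneg (by linarith) (by linarith)
  have hρ0 : 0 < ρ := by nlinarith
  obtain ⟨ε, hε⟩ : ∃ ε : ℝ, ε = (1 - k * θ - k * (1 - ρ)) / 2 := ⟨_, rfl⟩
  have hε0 : 0 < ε := by rw [hε]; linarith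
  have hθ1 : θ ≤ 1 := by nlinarith
  obtain ⟨C₀, hC₀, h1⟩ := count_scales hk κ P Q hPQ hQ ε hε0
  obtain ⟨C₁, h2⟩ := count_near (BadTuples κ P) (ρ := (k : ℝ) - 1 + ε) (θ := θ) (by linarith) hθ hθ1 hC₀ h1
  obtain ⟨N₀, hN₀⟩ := avoidT2 hk hF (c₀ := 1 - ε - k * θ) hρ0 hρ1 (by rw [hε]; linarith) C₁ hσ hb hc hcb
  refine ⟨N₀, fun N hN => ?_⟩
  have h3 := hN₀ N hN (NearTuple (BadTuples κ P) θ) (fun X hX => by
    refine (h2 X hX).trans (le_of_eq ?_)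
    congr 2
    ring)
  refine le_trans ?_ h3
  have hfin : {m : Fin k → ℕ | (∀ i, 1 ≤ m i ∧ m i ≤ N) ∧ ∃ w ∈ NearTuple (BadTuples κ P) θ, CombT F b σ ρ N m w}.Finite := by
    refine (Set.Finite.pi' (t := fun _ : Fin k => Set.Icc 1 N) fun _ => Set.finite_Icc _ _).subset ?_
    intro m hm i
    exact hm.1 i
  refine Nat.cast_le.2 (Set.ncard_le_ncard ?_ hfin)
  rintro m ⟨g1, g2⟩
  push Not at g2
  obtain ⟨w, hw, s, T, hT, hs, hsw, hP⟩ := g2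
  exact ⟨g1, w, ⟨s, ⟨T, hT, hs, hP⟩, hsw⟩, hw⟩

/-- The same with one condition for each coordinate. -/
theorem comb_scales' {k : ℕ} (hk : 1 ≤ k) (κ : ℕ) (P Q : ℕ → (Fin k → ℕ) → Prop)
    (hPQ : ∀ (N T : ℕ) (s : Fin k → ℕ), N ≤ T → T < 2 * N → P T s → Q N s)
    (hQ : ∃ K N₀ : ℕ, ∀ N : ℕ, N₀ ≤ N →
      {s : Fin k → ℕ | (∀ j, N ≤ s j ∧ s j ≤ (2 * κ) * N) ∧ Q N s}.ncard ≤ K * N ^ (k - 1))
    {F : Fin k → ℕ → ℕ} (hF : ∀ i, LM (F i)) {θ : ℝ} (hθ : 0 ≤ θ) (hsum : k * θ < 1)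
    {σ b c : ℝ} (hσ : σ < b) (hb : b < 1) (hc : 0 ≤ c) (hcb : c < 2 * b - 1) :
    ∃ N₀ : ℕ, ∀ N : ℕ, N₀ ≤ N →
      ({m : Fin k → ℕ | (∀ i, 1 ≤ m i ∧ m i ≤ N) ∧ ¬ ∀ v : Fin k → ℕ, (∀ i, Comb (F i) b σ N (m i) (v i)) →
        ∀ (s : Fin k → ℕ) (T : ℕ), 1 ≤ T →
        (∀ i, T ≤ s i ∧ s i ≤ κ * T) → (∀ i, |(s i : ℝ) - v i| ≤ (v i : ℝ) ^ θ) → ¬ P T s}.ncard : ℝ) ≤
        (N : ℝ) ^ k * Real.exp (-(Real.log N ^ c)) := by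
  have hk1 : (1 : ℝ) ≤ k := by exact_mod_cast hk
  have hk0 : (0 : ℝ) < k := by linarith
  obtain ⟨δ, hδ⟩ : ∃ δ : ℝ, δ = (1 - k * θ) / (2 * k) := ⟨_, rfl⟩
  have hδ0 : 0 < δ := by rw [hδ]; exact div_pos (by linarith) (by linarith)
  have hkδ : k * δ = (1 - k * θ) / 2 := by rw [hδ]; field_simp
  obtain ⟨ρ₀, hρ₀⟩ : ∃ ρ₀ : ℝ, ρ₀ = 1 - δ := ⟨_, rfl⟩
  have hθ1 : θ < 1 := by nlinarith
  have hsum' : k * (1 - ρ₀) + k * θ < 1 := by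
    have : k * (1 - ρ₀) + k * θ = k * θ + k * δ := by rw [hρ₀]; ring
    rw [this, hkδ]
    linarith
  have hρ₀0 : 0 < ρ₀ := by
    have : 0 ≤ k * θ := by positivity
    nlinarith
  obtain ⟨N₀, hN₀⟩ := comb_scales hk κ P Q hPQ hQ hF hθ (ρ := ρ₀) (by rw [hρ₀]; linarith) hsum' hσ hb hc hcb
  have hb0 : 0 < b := by linarith
  have e1 : Tendsto (fun N : ℕ => Real.exp (Real.log N ^ b)) atTop atTop :=
    Real.tendsto_exp_atTop.comp ((tendsto_rpow_atTop hb0).comp (Real.tendsto_log_atTop.comp tendsto_natCast_atTop_atTop))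
  have e2 : ∀ᶠ v : ℝ in atTop, 2 ≤ v ^ (1 - θ) := (tendsto_rpow_atTop (by linarith)).eventually_ge_atTop 2
  have e3 : ∀ᶠ v : ℝ in atTop, ((4 * κ : ℝ)) ^ ρ₀ ≤ v ^ δ := (tendsto_rpow_atTop hδ0).eventually_ge_atTop _
  obtain ⟨Y, hY⟩ := (e2.and (e3.and (eventually_ge_atTop (1 : ℝ)))).exists_forall_of_atTop
  obtain ⟨N₁, hN₁⟩ := (e1.eventually_ge_atTop Y).exists_forall_of_atTop
  refine ⟨max N₀ N₁, fun N hN => ?_⟩
  refine le_trans ?_ (hN₀ N (le_of_max_le_left hN))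
  have hfin : {m : Fin k → ℕ | (∀ i, 1 ≤ m i ∧ m i ≤ N) ∧ ¬ ∀ w : Fin k → ℕ, CombT F b σ ρ₀ N m w →
      ∀ (s : Fin k → ℕ) (T : ℕ), 1 ≤ T → (∀ i, T ≤ s i ∧ s i ≤ κ * T) → (∀ i, |(s i : ℝ) - w i| ≤ (w i : ℝ) ^ θ) →
      ¬ P T s}.Finite := by
    refine (Set.Finite.pi' (t := fun _ : Fin k => Set.Icc 1 N) fun _ => Set.finite_Icc _ _).subset ?_
    intro m hm i
    exact hm.1 i
  refine Nat.cast_le.2 (Set.ncard_le_ncard ?_ hfin)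
  rintro m ⟨g1, g2⟩
  refine ⟨g1, fun g3 => g2 fun v hv s T hT hs hsv hP => g3 v (fun i => ⟨hv i, fun j => ?_⟩) s T hT hs hsv hP⟩
  have key : ∀ i, (1 : ℝ) ≤ v i ∧ (v i : ℝ) ≤ 2 * s i ∧ (s i : ℝ) ≤ 2 * v i ∧ (4 * κ : ℝ) ^ ρ₀ ≤ (v i : ℝ) ^ δ := by
    intro i
    have h1 : Y ≤ (v i : ℝ) := (hN₁ N (le_of_max_le_right hN)).trans (hv i).1
    obtain ⟨h2, h3, h4⟩ := hY _ h1
    have h5 : 2 * (v i : ℝ) ^ θ ≤ v i := by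
      calc 2 * (v i : ℝ) ^ θ ≤ (v i : ℝ) ^ (1 - θ) * (v i : ℝ) ^ θ := mul_le_mul_of_nonneg_right h2 (by positivity)
        _ = v i := by rw [← Real.rpow_add (by linarith), sub_add_cancel, Real.rpow_one]
    have h6 := abs_le.1 (hsv i)
    exact ⟨h4, by linarith [h6.1], by linarith [h6.2], h3⟩
  obtain ⟨a1, a2, a3, a4⟩ := key i
  obtain ⟨b1, b2, b3, b4⟩ := key j
  have hT1 : ((s j : ℕ) : ℝ) ≤ κ * T := by exact_mod_cast (hs j).2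
  have hT2 : (T : ℝ) ≤ s i := by exact_mod_cast (hs i).1
  have hκ0 : (0 : ℝ) ≤ κ := Nat.cast_nonneg _
  have h7 : (v j : ℝ) ≤ (4 * κ) * v i := by
    calc (v j : ℝ) ≤ 2 * s j := b2
      _ ≤ 2 * (κ * T) := by linarith
      _ ≤ 2 * (κ * (2 * v i)) := by
          have := mul_le_mul_of_nonneg_left (hT2.trans a3) hκ0
          linarith
      _ = _ := by ring
  calc (v j : ℝ) ^ ρ₀ ≤ ((4 * κ) * v i : ℝ) ^ ρ₀ := Real.rpow_le_rpow (by linarith) h7 hρ₀0.le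
    _ = (4 * κ : ℝ) ^ ρ₀ * (v i : ℝ) ^ ρ₀ := Real.mul_rpow (by positivity) (by linarith)
    _ ≤ (v i : ℝ) ^ δ * (v i : ℝ) ^ ρ₀ := mul_le_mul_of_nonneg_right a4 (by positivity)
    _ = (v i : ℝ) := by
        rw [← Real.rpow_add (by linarith), hρ₀]
        have : δ + (1 - δ) = 1 := by ring
        rw [this, Real.rpow_one]

end Pool.Agent.U536.DS
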