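import Pool.Agent.U536.CF.TI
import Pool.Agent.U536.DS.TN

set_option autoImplicit false

/-! Families of integers with a finite index set, near families of combinations of two divisors of the values of
multiplicative functions (helper536). -/

namespace Pool.Agent.U536.DS

open Pool.Agent.N733.TG (LM)
open Pool.Agent.U536.CF

/-- for all `i`: `w i ≥ exp ((log N)^b)`, and `w i = u d + v e` with divisors `d`, `e` of `F i (m i)` and integers `u`, `v` with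
`|u|, |v| ≤ exp ((log N)^θ)`; and `w i ≥ (w j)^ρ` for all `j` -/
def CombI {ι : Type} (F : ι → ℕ → ℕ) (b θ ρ : ℝ) (N : ℕ) (m w : ι → ℕ) : Prop :=
  ∀ i, Comb (F i) b θ N (m i) (w i) ∧ ∀ j, (w j : ℝ) ^ ρ ≤ (w i : ℝ)

/-- sums and differences of two divisors -/
theorem combI_pm {ι : Type} {F : ι → ℕ → ℕ} {b θ ρ : ℝ} {N : ℕ} {m w : ι → ℕ}
    (hw : ∀ i, Real.exp (Real.log N ^ b) ≤ (w i : ℝ))
    (hd : ∀ i, ∃ s t : ℕ, s ∣ F i (m i) ∧ t ∣ F i (m i) ∧ (w i = s + t ∨ w i = s - t ∨ w i = s))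
    (hc : ∀ i j, (w j : ℝ) ^ ρ ≤ (w i : ℝ)) : CombI F b θ ρ N m w := by
  intro i
  have h := combT_pm (k := 1) (F := fun _ => F i) (b := b) (θ := θ) (ρ := 0) (N := N) (m := fun _ => m i)
    (w := fun _ => w i) (fun _ => hw i) (fun _ => hd i) (fun _ _ => ?_) 0
  · exact ⟨h.1, fun j => hc i j⟩
  · rw [Real.rpow_zero]
    have h1 := Real.add_one_le_exp (Real.log N ^ b)
    have h2 := hw i
    have h3 := Real.rpow_nonneg (Real.log_natCast_nonneg N) b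
    linarith

/-- **Families.** `E` has at most `C T ^ (k - c)` elements in the cube of size `T`, `k` the number of indices. For all families
`m` but `N ^ k exp (-(log N) ^ c₁)`: for every family `w` with `CombI`, all `a_i w_i + b_i` with
small `a_i ≠ 0` and `b_i` are not in `E`. -/
theorem comb_near_I {ι : Type} [Fintype ι] [Nonempty ι] {c : ℝ} (hc : 0 < c) : ∃ η ρ : ℝ, 0 < η ∧ 0 < ρ ∧ ρ < 1 ∧
    ∀ F : ι → ℕ → ℕ, (∀ i, LM (F i)) → ∀ C θ b₁ c₁ : ℝ, θ < b₁ → b₁ < 1 → 0 ≤ c₁ → c₁ < 2 * b₁ - 1 →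
      ∃ N₀ : ℕ, ∀ N : ℕ, N₀ ≤ N → ∀ E : Set (ι → ℤ),
      (∀ T : ℕ, 1 ≤ T → ({α : ι → ℤ | (∀ i, |α i| ≤ (T : ℤ)) ∧ α ∈ E}.ncard : ℝ) ≤
        C * (T : ℝ) ^ ((Fintype.card ι : ℝ) - c)) →
      ({m : ι → ℕ | (∀ i, 1 ≤ m i ∧ m i ≤ N) ∧ ¬ ∀ w : ι → ℕ, CombI F b₁ θ ρ N m w →
        ∀ a b : ι → ℤ, (∃ l, ∀ i, a i ≠ 0 ∧ |(a i : ℝ)| ≤ (w l : ℝ) ^ η ∧ |(b i : ℝ)| ≤ (w l : ℝ) ^ η) →
        (fun i => a i * (w i : ℤ) + b i) ∉ E}.ncard : ℝ) ≤ (N : ℝ) ^ Fintype.card ι * Real.exp (-(Real.log N ^ c₁)) := by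
  classical
  obtain ⟨e⟩ : Nonempty (Fin (Fintype.card ι) ≃ ι) := ⟨(Fintype.equivFin ι).symm⟩
  obtain ⟨η, ρ, hη, hρ0, hρ1, h⟩ := comb_near (k := Fintype.card ι) Fintype.card_pos hc
  refine ⟨η, ρ, hη, hρ0, hρ1, fun F hF C θ b₁ c₁ hθ hb₁ hc₁ hcb => ?_⟩
  obtain ⟨N₀, hN₀⟩ := h (fun i => F (e i)) (fun i => hF _) C θ b₁ c₁ hθ hb₁ hc₁ hcb
  refine ⟨N₀, fun N hN E hE => ?_⟩
  have key := hN₀ N hN {α : Fin (Fintype.card ι) → ℤ | (fun i => α (e.symm i)) ∈ E} (fun T hT => ?_)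
  · refine le_trans ?_ key
    have hfin : {m : Fin (Fintype.card ι) → ℕ | (∀ i, 1 ≤ m i ∧ m i ≤ N) ∧ ¬ ∀ w : Fin (Fintype.card ι) → ℕ,
        CombT (fun i => F (e i)) b₁ θ ρ N m w → ∀ a b : Fin (Fintype.card ι) → ℤ,
        (∃ l, ∀ i, a i ≠ 0 ∧ |(a i : ℝ)| ≤ (w l : ℝ) ^ η ∧ |(b i : ℝ)| ≤ (w l : ℝ) ^ η) →
        (fun i => a i * (w i : ℤ) + b i) ∉ {α : Fin (Fintype.card ι) → ℤ | (fun i => α (e.symm i)) ∈ E}}.Finite := by
      refine (Set.Finite.pi' (t := fun _ : Fin (Fintype.card ι) => Set.Icc 1 N) fun _ => Set.finite_Icc _ _).subset ?_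
      intro m hm i
      exact hm.1 i
    refine Nat.cast_le.2 (Set.ncard_le_ncard_of_injOn (fun (m : ι → ℕ) i => m (e i)) ?_ ?_ hfin)
    · rintro m ⟨g1, g2⟩
      refine ⟨fun i => g1 (e i), fun g3 => g2 fun w hw a b hab hE' => ?_⟩
      refine g3 (fun i => w (e i)) (fun i => ⟨(hw (e i)).1, fun j => (hw (e i)).2 (e j)⟩) (fun i => a (e i)) (fun i => b (e i)) ?_ ?_
      · obtain ⟨l, hl⟩ := hab
        refine ⟨e.symm l, fun i => ?_⟩
        rw [e.apply_symm_apply]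
        exact hl (e i)
      · show (fun i => a (e (e.symm i)) * (w (e (e.symm i)) : ℤ) + b (e (e.symm i))) ∈ E
        simpa using hE'
    · intro m _ m' _ hmm
      funext i
      have := congrFun hmm (e.symm i)
      simpa using this
  · refine le_trans ?_ (hE T hT)
    have hfin : {α : ι → ℤ | (∀ i, |α i| ≤ (T : ℤ)) ∧ α ∈ E}.Finite := by
      refine (Set.Finite.pi' (t := fun _ : ι => Set.Icc (-(T : ℤ)) T) fun _ => Set.finite_Icc _ _).subset ?_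
      intro α hα i
      exact abs_le.1 (hα.1 i)
    refine Nat.cast_le.2 (Set.ncard_le_ncard_of_injOn (fun (α : Fin (Fintype.card ι) → ℤ) i => α (e.symm i)) ?_ ?_ hfin)
    · rintro α ⟨g1, g2⟩
      exact ⟨fun i => g1 _, g2⟩
    · intro m _ m' _ hmm
      funext i
      have := congrFun hmm (e i)
      simpa using this


end Pool.Agent.U536.DS
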